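import Mathlib

set_option autoImplicit false

open Finset MeasureTheory

namespace Pool.Agent.Lib.MP_a0e7a4_nt

/-- times at which `v t` lies in the arc with centre `c` and radius `r` -/
def E (v : ℕ) (c r : ℝ) : Set UnitAddCircle :=
  (fun t => (v : ℤ) • t) ⁻¹' Metric.closedBall (c : UnitAddCircle) r

lemma mem_E (v : ℕ) (c r t : ℝ) :
    (t : UnitAddCircle) ∈ E v c r ↔ ∃ m : ℤ, |v * t - c - m| ≤ r := by
  unfold E
  rw [Set.mem_preimage, mem_closedBall_iff_norm]
  have : (v : ℤ) • (t : UnitAddCircle) - (c : UnitAddCircle) = ((v * t - c : ℝ) : UnitAddCircle) := by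
    rw [AddCircle.coe_sub, ← AddCircle.coe_zsmul]; simp
  rw [this, UnitAddCircle.norm_eq]
  exact ⟨fun h => ⟨_, h⟩, fun ⟨m, h⟩ => (round_le _ m).trans h⟩

lemma meas_E (v : ℕ) (c r : ℝ) : MeasurableSet (E v c r) :=
  (continuous_zsmul (v : ℤ)).measurable measurableSet_closedBall

lemma vol_E (v : ℕ) (hv : 0 < v) (c r : ℝ) (hr0 : 0 ≤ r) (hr : 2 * r ≤ 1) :
    (volume : Measure UnitAddCircle).real (E v c r) = 2 * r := by
  unfold E
  have h := (Measure.measurePreserving_zsmul (volume : Measure UnitAddCircle)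
    (n := (v : ℤ)) (by exact_mod_cast hv.ne')).measure_preimage
    (measurableSet_closedBall (x := (c : UnitAddCircle)) (ε := r)).nullMeasurableSet
  rw [Measure.real, h, AddCircle.volume_closedBall, min_eq_right hr,
    ENNReal.toReal_ofReal (by linarith)]

/-- translate of a set -/
def sh (s : ℝ) (A : Set UnitAddCircle) : Set UnitAddCircle :=
  (fun t => t + (s : UnitAddCircle)) ⁻¹' A

lemma mem_sh (s t : ℝ) (A : Set UnitAddCircle) :
    (t : UnitAddCircle) ∈ sh s A ↔ ((t + s : ℝ) : UnitAddCircle) ∈ A := by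
  unfold sh; rw [Set.mem_preimage, AddCircle.coe_add]

lemma meas_sh (s : ℝ) {A : Set UnitAddCircle} (hA : MeasurableSet A) : MeasurableSet (sh s A) :=
  (measurable_add_const _) hA

lemma vol_sh (s : ℝ) (A : Set UnitAddCircle) :
    (volume : Measure UnitAddCircle).real (sh s A) = (volume : Measure UnitAddCircle).real A := by
  unfold sh
  rw [Measure.real, Measure.real, measure_preimage_add_right]

lemma vol_univ : (volume : Measure UnitAddCircle).real Set.univ = 1 := by
  simp [Measure.real]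

lemma circ_ind (P : UnitAddCircle → Prop) (h : ∀ t : ℝ, P (t : UnitAddCircle)) (x : UnitAddCircle) :
    P x := QuotientAddGroup.induction_on x h

/-- real indicator -/
noncomputable def ind (A : Set UnitAddCircle) : UnitAddCircle → ℝ := A.indicator 1

lemma ind_of_mem {A : Set UnitAddCircle} {x : UnitAddCircle} (h : x ∈ A) : ind A x = 1 := by
  simp [ind, h]

lemma ind_of_notMem {A : Set UnitAddCircle} {x : UnitAddCircle} (h : x ∉ A) : ind A x = 0 := by
  simp [ind, h]

lemma ind_integrable {A : Set UnitAddCircle} (hA : MeasurableSet A) : Integrable (ind A) :=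
  (integrable_const (1 : ℝ)).indicator hA

lemma ind_integral {A : Set UnitAddCircle} (hA : MeasurableSet A) :
    ∫ x, ind A x = (volume : Measure UnitAddCircle).real A := integral_indicator_one hA

lemma sum_ind_integrable (s : Finset ℕ) (A : ℕ → Set UnitAddCircle)
    (hA : ∀ i, MeasurableSet (A i)) : Integrable (fun x => ∑ i ∈ s, ind (A i) x) :=
  integrable_finsetSum _ (fun i _ => ind_integrable (hA i))

lemma sum_ind_integral (s : Finset ℕ) (A : ℕ → Set UnitAddCircle)
    (hA : ∀ i, MeasurableSet (A i)) :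
    ∫ x, ∑ i ∈ s, ind (A i) x = ∑ i ∈ s, (volume : Measure UnitAddCircle).real (A i) := by
  rw [integral_finsetSum _ (fun i _ => ind_integrable (hA i))]
  exact sum_congr rfl (fun i _ => ind_integral (hA i))

open Classical in
lemma sum_ind (s : Finset ℕ) (A : ℕ → Set UnitAddCircle) (x : UnitAddCircle) :
    ∑ i ∈ s, ind (A i) x = ((s.filter (fun i => x ∈ A i)).card : ℝ) := by
  rw [card_filter]; push_cast
  apply sum_congr rfl; intro i _
  by_cases h : x ∈ A i
  · rw [ind_of_mem h, if_pos h]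
  · rw [ind_of_notMem h, if_neg h]

lemma count_shift (a b : ℕ) (hb : 0 < b) (hab : Nat.Coprime a b) (y r : ℝ) (hr : 0 ≤ r)
    (T : Finset ℕ) (hT : ∀ k ∈ T, k < b ∧ ∃ m : ℤ, |y + (k : ℝ) * a / b - m| ≤ r) :
    (T.card : ℝ) ≤ 2 * r * b + 1 := by
  have hb' : (0 : ℝ) < b := by exact_mod_cast hb
  have : ∀ k, ∃ m : ℤ, k ∈ T → |y + (k : ℝ) * a / b - m| ≤ r := by
    intro k
    by_cases hk : k ∈ T
    · obtain ⟨m, hm⟩ := (hT k hk).2; exact ⟨m, fun _ => hm⟩
    · exact ⟨0, fun h => absurd h hk⟩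
  choose m hm using this
  set α : ℝ := b * (-y - r) with hα
  set β : ℝ := b * (-y + r) with hβ
  have h1 : T.card ≤ (Icc ⌈α⌉ ⌊β⌋).card := by
    apply card_le_card_of_injOn (fun k : ℕ => (k : ℤ) * a - m k * b)
    · intro k hk
      have := abs_le.1 (hm k hk)
      simp only [coe_Icc, Set.mem_Icc]
      have e : (((k : ℤ) * a - m k * b : ℤ) : ℝ) = b * ((k : ℝ) * a / b - m k) := by
        push_cast; field_simp
      constructor
      · rw [Int.ceil_le, e, hα]; apply mul_le_mul_of_nonneg_left _ hb'.le; linarith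
      · rw [Int.le_floor, e, hβ]; apply mul_le_mul_of_nonneg_left _ hb'.le; linarith
    · intro k hk k' hk' h
      simp only at h
      have c1 : (b : ℤ) ∣ ((k : ℤ) - k') * a := ⟨m k - m k', by linarith⟩
      have c2 : (b : ℤ) ∣ ((k : ℤ) - k') :=
        (Nat.isCoprime_iff_coprime.2 hab.symm).dvd_of_dvd_mul_right c1
      have c3 := (hT k hk).1
      have c4 := (hT k' hk').1
      have c5 : (k : ℤ) - k' = 0 := Int.eq_zero_of_abs_lt_dvd c2 (by rw [abs_lt]; omega)
      omega
  rw [Int.card_Icc] at h1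
  have h2 : ((⌊β⌋ + 1 - ⌈α⌉).toNat : ℝ) ≤ 2 * r * b + 1 := by
    rcases le_total 0 (⌊β⌋ + 1 - ⌈α⌉) with h | h
    · have e : ((⌊β⌋ + 1 - ⌈α⌉).toNat : ℝ) = ((⌊β⌋ + 1 - ⌈α⌉ : ℤ) : ℝ) := by
        exact_mod_cast congrArg (fun z : ℤ => (z : ℝ)) (Int.toNat_of_nonneg h)
      rw [e]; push_cast
      have := Int.floor_le β
      have := Int.le_ceil α
      have : β - α = 2 * r * b := by rw [hα, hβ]; ring
      linarith
    · rw [Int.toNat_of_nonpos h]; simp only [Nat.cast_zero]; positivity
  have h3 : (T.card : ℝ) ≤ ((⌊β⌋ + 1 - ⌈α⌉).toNat : ℝ) := by exact_mod_cast h1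
  linarith

lemma pair_bound (g a b : ℕ) (hg : 0 < g) (hb : 0 < b) (hab : Nat.Coprime a b) (c r c' r' : ℝ)
    (hr : 0 ≤ r) (hr' : 0 ≤ r') (hr1 : 2 * r' ≤ 1) :
    (volume : Measure UnitAddCircle).real (E (g * a) c r ∩ E (g * b) c' r') ≤
      2 * r' * (2 * r + 1 / b) := by
  classical
  have hb' : (0 : ℝ) < b := by exact_mod_cast hb
  have hg' : (0 : ℝ) < g := by exact_mod_cast hg
  set F := E (g * a) c r ∩ E (g * b) c' r' with hF
  have hFm : MeasurableSet F := (meas_E _ _ _).inter (meas_E _ _ _)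
  have h1 := sum_ind_integral (range b) (fun k => sh (k / (g * b)) F) (fun k => meas_sh _ hFm)
  simp only [vol_sh, sum_const, card_range, nsmul_eq_mul] at h1
  have h2 : ∫ x, (2 * r * b + 1) * ind (E (g * b) c' r') x = (2 * r * b + 1) * (2 * r') := by
    rw [integral_const_mul, ind_integral (meas_E _ _ _), vol_E _ (Nat.mul_pos hg hb) _ _ hr' hr1]
  have h3 : ∫ x, ∑ k ∈ range b, ind (sh (k / (g * b)) F) x ≤
      ∫ x, (2 * r * b + 1) * ind (E (g * b) c' r') x := by
    apply integral_mono (sum_ind_integrable _ _ (fun k => meas_sh _ hFm))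
      ((ind_integrable (meas_E _ _ _)).const_mul _)
    intro x
    induction x using circ_ind with
    | h t =>
    simp only
    rw [sum_ind (range b) (fun k => sh (k / (g * b)) F)]
    by_cases ht : (t : UnitAddCircle) ∈ E (g * b) c' r'
    · rw [ind_of_mem ht, mul_one]
      apply count_shift a b hb hab ((g * a : ℕ) * t - c) r hr
      intro k hk
      rw [mem_filter, mem_range, mem_sh] at hk
      refine ⟨hk.1, ?_⟩
      obtain ⟨m, hm⟩ := (mem_E _ _ _ _).1 hk.2.1
      refine ⟨m, ?_⟩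
      convert hm using 2
      push_cast; field_simp; ring
    · rw [ind_of_notMem ht, mul_zero, filter_false_of_mem]
      · simp
      · intro k _ hk
        rw [mem_sh] at hk
        obtain ⟨m, hm⟩ := (mem_E _ _ _ _).1 hk.2
        apply ht
        refine (mem_E _ _ _ _).2 ⟨m - k, ?_⟩
        convert hm using 2
        push_cast; field_simp; ring
  rw [h1, h2] at h3
  rw [← mul_le_mul_iff_right₀ hb']
  refine h3.trans (le_of_eq ?_)
  field_simp

end Pool.Agent.Lib.MP_a0e7a4_nt
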