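import Mathlib

set_option autoImplicit false

open Finset

namespace Pool.Agent.Lib.MP_a0e7a4_nt

/-- distance of two naturals -/
def dd (i j : ℕ) : ℕ := (i - j) + (j - i)

lemma dd_comm (i j : ℕ) : dd i j = dd j i := by unfold dd; omega

lemma dd_self (i : ℕ) : dd i i = 0 := by unfold dd; omega

lemma geom_pos (l : ℝ) (h0 : 0 ≤ l) (h1 : l < 1) (T : Finset ℕ) :
    ∑ m ∈ T, l ^ (m + 1) ≤ l / (1 - l) := by
  have hs : HasSum (fun m : ℕ => l ^ (m + 1)) (l / (1 - l)) := by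
    have := (hasSum_geometric_of_lt_one h0 h1).mul_left l
    have e : (fun m : ℕ => l ^ (m + 1)) = fun i => l * l ^ i := by ext m; ring
    rw [e, div_eq_mul_inv]; exact this
  exact sum_le_hasSum T (fun m _ => by positivity) hs

lemma geom_off (l : ℝ) (h0 : 0 ≤ l) (h1 : l < 1) (I : Finset ℕ) (i : ℕ) :
    ∑ j ∈ I.erase i, l ^ dd i j ≤ 2 * (l / (1 - l)) := by
  have hsplit : ∑ j ∈ I.erase i, l ^ dd i j =
      ∑ j ∈ (I.erase i).filter (fun j => i < j), l ^ dd i j +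
      ∑ j ∈ (I.erase i).filter (fun j => ¬ i < j), l ^ dd i j :=
    (sum_filter_add_sum_filter_not _ _ _).symm
  have h1' : ∑ j ∈ (I.erase i).filter (fun j => i < j), l ^ dd i j ≤ l / (1 - l) := by
    have : ∑ j ∈ (I.erase i).filter (fun j => i < j), l ^ dd i j =
        ∑ m ∈ ((I.erase i).filter (fun j => i < j)).image (fun j => j - i - 1), l ^ (m + 1) := by
      rw [sum_image]
      · apply sum_congr rfl
        intro j hj
        simp only [mem_filter] at hj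
        congr 1
        unfold dd; omega
      · intro a ha b hb hab
        simp only [coe_filter, Set.mem_ofPred_eq] at ha hb
        simp only at hab
        omega
    rw [this]; exact geom_pos l h0 h1 _
  have h2' : ∑ j ∈ (I.erase i).filter (fun j => ¬ i < j), l ^ dd i j ≤ l / (1 - l) := by
    have : ∑ j ∈ (I.erase i).filter (fun j => ¬ i < j), l ^ dd i j =
        ∑ m ∈ ((I.erase i).filter (fun j => ¬ i < j)).image (fun j => i - j - 1), l ^ (m + 1) := by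
      rw [sum_image]
      · apply sum_congr rfl
        intro j hj
        simp only [mem_filter, mem_erase] at hj
        congr 1
        unfold dd; omega
      · intro a ha b hb hab
        simp only [coe_filter, Set.mem_ofPred_eq, mem_erase] at ha hb
        simp only at hab
        omega
    rw [this]; exact geom_pos l h0 h1 _
  linarith

lemma geom_all (l : ℝ) (h0 : 0 ≤ l) (h1 : l < 1) (I : Finset ℕ) (i : ℕ) :
    ∑ j ∈ I, l ^ dd i j ≤ 1 + 2 * (l / (1 - l)) := by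
  have h := geom_off l h0 h1 I i
  by_cases hi : i ∈ I
  · rw [← add_sum_erase I _ hi, dd_self, pow_zero]; linarith
  · rw [erase_eq_of_notMem hi] at h; linarith

/-- Schur test -/
lemma schur (I J : Finset ℕ) (k : ℕ → ℕ → ℝ) (hk : ∀ i j, 0 ≤ k i j) (L : ℝ)
    (hI : ∀ i ∈ I, ∑ j ∈ J, k i j ≤ L) (hJ : ∀ j ∈ J, ∑ i ∈ I, k i j ≤ L)
    (x y : ℕ → ℝ) :
    ∑ i ∈ I, ∑ j ∈ J, k i j * (x i * y j) ≤ L * (∑ i ∈ I, x i ^ 2 + ∑ j ∈ J, y j ^ 2) / 2 := by
  have h1 : ∑ i ∈ I, ∑ j ∈ J, k i j * (x i * y j) ≤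
      ∑ i ∈ I, ∑ j ∈ J, (k i j * x i ^ 2 / 2 + k i j * y j ^ 2 / 2) := by
    apply sum_le_sum; intro i _; apply sum_le_sum; intro j _
    have := hk i j
    nlinarith [mul_nonneg this (sq_nonneg (x i - y j))]
  have h2 : ∑ i ∈ I, ∑ j ∈ J, k i j * x i ^ 2 / 2 ≤ L * (∑ i ∈ I, x i ^ 2) / 2 := by
    rw [mul_sum, sum_div]
    apply sum_le_sum; intro i hi
    rw [← sum_div, ← sum_mul]
    have := hI i hi
    have := sq_nonneg (x i)
    nlinarith
  have h3 : ∑ i ∈ I, ∑ j ∈ J, k i j * y j ^ 2 / 2 ≤ L * (∑ j ∈ J, y j ^ 2) / 2 := by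
    rw [sum_comm, mul_sum, sum_div]
    apply sum_le_sum; intro j hj
    rw [← sum_div, ← sum_mul]
    have := hJ j hj
    have := sq_nonneg (y j)
    nlinarith
  simp only [sum_add_distrib] at h1
  linarith

lemma le_one_of_sum (I : Finset ℕ) (a : ℕ → ℝ) (ha : ∀ i, 0 ≤ a i)
    (hs : ∑ i ∈ I, a i ^ 4 ≤ 1) (i : ℕ) (hi : i ∈ I) : a i ≤ 1 := by
  have : a i ^ 4 ≤ 1 :=
    le_trans (single_le_sum (f := fun i => a i ^ 4) (fun j _ => by have := ha j; positivity) hi) hs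
  exact (pow_le_one_iff_of_nonneg (ha i) (by norm_num)).1 this

lemma sum_six_le (I : Finset ℕ) (a : ℕ → ℝ) (ha : ∀ i, 0 ≤ a i) (r : ℝ)
    (hr : ∀ i ∈ I, a i ≤ r) :
    ∑ i ∈ I, (a i ^ 3) ^ 2 ≤ r ^ 2 * ∑ i ∈ I, a i ^ 4 := by
  rw [mul_sum]
  apply sum_le_sum; intro i hi
  have h1 := ha i
  have h2 := hr i hi
  have : a i ^ 2 ≤ r ^ 2 := pow_le_pow_left₀ h1 h2 2
  have h4 : 0 ≤ a i ^ 4 := by positivity
  nlinarith

/-- small primes -/
lemma conc_small (I : Finset ℕ) (a b : ℕ → ℝ) (ha : ∀ i, 0 ≤ a i) (hb : ∀ i, 0 ≤ b i)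
    (hsa : ∑ i ∈ I, a i ^ 4 ≤ 1) (hsb : ∑ i ∈ I, b i ^ 4 ≤ 1) (l : ℝ) (h0 : 0 ≤ l)
    (h1 : l ≤ 9 / 10) :
    ∑ i ∈ I, ∑ j ∈ I, l ^ dd i j * (a i ^ 3 * b j ^ 3) ≤ 19 := by
  have hl : l < 1 := by linarith
  have hL : 1 + 2 * (l / (1 - l)) ≤ 19 := by
    have : l / (1 - l) ≤ 9 := by
      rw [div_le_iff₀ (by linarith)]; linarith
    linarith
  have := schur I I (fun i j => l ^ dd i j) (fun i j => by positivity) 19
    (fun i _ => (geom_all l h0 hl I i).trans hL)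
    (fun j _ => by simpa only [dd_comm _ j] using (geom_all l h0 hl I j).trans hL)
    (fun i => a i ^ 3) (fun j => b j ^ 3)
  have h2 := sum_six_le I a ha 1 (le_one_of_sum I a ha hsa)
  have h3 := sum_six_le I b hb 1 (le_one_of_sum I b hb hsb)
  nlinarith

lemma sum_split (I : Finset ℕ) (k : ℕ) (hk : k ∈ I) (F : ℕ → ℕ → ℝ) :
    ∑ i ∈ I, ∑ j ∈ I, F i j = F k k + ∑ j ∈ I.erase k, F k j + ∑ i ∈ I.erase k, F i k +
      ∑ i ∈ I.erase k, ∑ j ∈ I.erase k, F i j := by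
  rw [← add_sum_erase I _ hk, ← add_sum_erase I _ hk]
  have : ∑ i ∈ I.erase k, ∑ j ∈ I, F i j =
      ∑ i ∈ I.erase k, (F i k + ∑ j ∈ I.erase k, F i j) := by
    apply sum_congr rfl; intro i _; rw [← add_sum_erase I _ hk]
  rw [this, sum_add_distrib]; ring

/-- large primes -/
lemma conc_large (I : Finset ℕ) (a b : ℕ → ℝ) (ha : ∀ i, 0 ≤ a i) (hb : ∀ i, 0 ≤ b i)
    (hsa : ∑ i ∈ I, a i ^ 4 ≤ 1) (hsb : ∑ i ∈ I, b i ^ 4 ≤ 1) (l : ℝ) (h0 : 0 ≤ l)
    (h1 : l ≤ 1 / 2304)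
    (hm : 1 ≤ ∑ i ∈ I, ∑ j ∈ I, l ^ dd i j * (a i ^ 3 * b j ^ 3)) :
    ∃ k, ∑ i ∈ I.erase k, ∑ j ∈ I.erase k, l ^ dd i j * (a i ^ 3 * b j ^ 3) ≤
      3 * 16 ^ 6 * l ^ 6 := by
  have hl : l < 1 := by linarith
  have hq : l / (1 - l) ≤ 2 * l := by
    rw [div_le_iff₀ (by linarith)]; nlinarith
  have hne : I.Nonempty := by
    by_contra h
    rw [not_nonempty_iff_eq_empty] at h
    subst h; simp at hm; linarith
  obtain ⟨k, hk, hmax⟩ := exists_max_image I (fun i => a i * b i) hne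
  have ha1 := le_one_of_sum I a ha hsa
  have hb1 := le_one_of_sum I b hb hsb
  -- first step
  have step1 : 1 - 4 * l ≤ a k * b k := by
    have e1 : ∑ i ∈ I, ∑ j ∈ I, l ^ dd i j * (a i ^ 3 * b j ^ 3) =
        ∑ i ∈ I, a i ^ 3 * b i ^ 3 +
        ∑ i ∈ I, ∑ j ∈ I, (if i = j then 0 else l ^ dd i j) * (a i ^ 3 * b j ^ 3) := by
      rw [← sum_add_distrib]
      apply sum_congr rfl; intro i hi
      rw [← add_sum_erase I _ hi, ← add_sum_erase I _ hi, dd_self]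
      simp only [pow_zero, one_mul, if_true, zero_mul, zero_add]
      congr 1
      apply sum_congr rfl; intro j hj
      rw [if_neg (Ne.symm (mem_erase.1 hj).1)]
    have key : ∀ i ∈ I, ∑ j ∈ I, (if i = j then 0 else l ^ dd i j) ≤ 4 * l := by
      intro i hi
      rw [← add_sum_erase I _ hi]
      simp only [if_true, zero_add]
      have : ∑ j ∈ I.erase i, (if i = j then 0 else l ^ dd i j) = ∑ j ∈ I.erase i, l ^ dd i j := by
        apply sum_congr rfl; intro j hj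
        rw [if_neg (Ne.symm (mem_erase.1 hj).1)]
      rw [this]
      have := geom_off l h0 hl I i
      linarith
    have e2 := schur I I (fun i j => if i = j then 0 else l ^ dd i j)
      (fun i j => by by_cases h : i = j <;> simp [h]; positivity) (4 * l) key
      (fun j hj => by
        have := key j hj
        convert this using 2 with i
        rw [dd_comm]; simp only [eq_comm])
      (fun i => a i ^ 3) (fun j => b j ^ 3)
    have h2 := sum_six_le I a ha 1 ha1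
    have h3 := sum_six_le I b hb 1 hb1
    have e3 : ∑ i ∈ I, a i ^ 3 * b i ^ 3 ≤ (a k * b k) * ((∑ i ∈ I, a i ^ 4 + ∑ i ∈ I, b i ^ 4) / 2) := by
      rw [← sum_add_distrib, sum_div, mul_sum]
      apply sum_le_sum; intro i hi
      have m1 := hmax i hi
      have m2 : 0 ≤ a i * b i := mul_nonneg (ha i) (hb i)
      have m3 : a i ^ 2 * b i ^ 2 ≤ (a i ^ 4 + b i ^ 4) / 2 := by
        nlinarith [sq_nonneg (a i ^ 2 - b i ^ 2)]
      calc a i ^ 3 * b i ^ 3 = (a i * b i) * (a i ^ 2 * b i ^ 2) := by ring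
        _ ≤ (a k * b k) * ((a i ^ 4 + b i ^ 4) / 2) := by
          apply mul_le_mul m1 m3 (by positivity) (mul_nonneg (ha k) (hb k))
    have m2 : 0 ≤ a k * b k := mul_nonneg (ha k) (hb k)
    have e4 : (a k * b k) * ((∑ i ∈ I, a i ^ 4 + ∑ i ∈ I, b i ^ 4) / 2) ≤ a k * b k := by
      nlinarith
    have e5 : 4 * l * (∑ i ∈ I, (a i ^ 3) ^ 2 + ∑ j ∈ I, (b j ^ 3) ^ 2) / 2 ≤ 4 * l := by
      nlinarith
    linarith
  have hak : 1 - 4 * l ≤ a k := by
    have := hb1 k hk; have := ha k; nlinarith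
  have hbk : 1 - 4 * l ≤ b k := by
    have := ha1 k hk; have := hb k; nlinarith
  have bern : 1 - 16 * l ≤ (1 - 4 * l) ^ 4 := by
    have := one_add_mul_le_pow (a := -(4 * l)) (by linarith) 4
    push_cast at this
    calc 1 - 16 * l = 1 + 4 * -(4 * l) := by ring
      _ ≤ (1 + -(4 * l)) ^ 4 := this
      _ = (1 - 4 * l) ^ 4 := by ring
  have hak4 : 1 - 16 * l ≤ a k ^ 4 := bern.trans (pow_le_pow_left₀ (by linarith) hak 4)
  have hbk4 : 1 - 16 * l ≤ b k ^ 4 := bern.trans (pow_le_pow_left₀ (by linarith) hbk 4)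
  have hak4' : a k ^ 4 ≤ 1 := pow_le_one₀ (ha k) (ha1 k hk)
  have hbk4' : b k ^ 4 ≤ 1 := pow_le_one₀ (hb k) (hb1 k hk)
  set R : ℝ := max (1 - a k ^ 4) (1 - b k ^ 4) with hR
  have hR0 : 0 ≤ R := le_trans (by linarith) (le_max_left _ _)
  have hR16 : R ≤ 16 * l := max_le (by linarith) (by linarith)
  set r : ℝ := R ^ (1 / 4 : ℝ) with hr
  have hr0 : 0 ≤ r := Real.rpow_nonneg hR0 _
  have hr4 : r ^ 4 = R := by
    rw [hr, ← Real.rpow_natCast, ← Real.rpow_mul hR0]; norm_num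
  have hsa' : ∑ i ∈ I.erase k, a i ^ 4 ≤ r ^ 4 := by
    have := add_sum_erase I (fun i => a i ^ 4) hk
    have h2 := le_max_left (1 - a k ^ 4) (1 - b k ^ 4)
    linarith
  have hsb' : ∑ i ∈ I.erase k, b i ^ 4 ≤ r ^ 4 := by
    have := add_sum_erase I (fun i => b i ^ 4) hk
    have h2 := le_max_right (1 - a k ^ 4) (1 - b k ^ 4)
    linarith
  have har : ∀ i ∈ I.erase k, a i ≤ r := by
    intro i hi
    have : a i ^ 4 ≤ r ^ 4 := le_trans
      (single_le_sum (f := fun i => a i ^ 4) (fun j _ => by have := ha j; positivity) hi) hsa'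
    exact (pow_le_pow_iff_left₀ (ha i) hr0 (by norm_num)).1 this
  have hbr : ∀ i ∈ I.erase k, b i ≤ r := by
    intro i hi
    have : b i ^ 4 ≤ r ^ 4 := le_trans
      (single_le_sum (f := fun i => b i ^ 4) (fun j _ => by have := hb j; positivity) hi) hsb'
    exact (pow_le_pow_iff_left₀ (hb i) hr0 (by norm_num)).1 this
  have hL : 1 + 2 * (l / (1 - l)) ≤ 3 := by linarith
  have last : ∑ i ∈ I.erase k, ∑ j ∈ I.erase k, l ^ dd i j * (a i ^ 3 * b j ^ 3) ≤ 3 * r ^ 6 := by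
    have := schur (I.erase k) (I.erase k) (fun i j => l ^ dd i j) (fun i j => by positivity) 3
      (fun i _ => (geom_all l h0 hl _ i).trans hL)
      (fun j _ => by simpa only [dd_comm _ j] using (geom_all l h0 hl _ j).trans hL)
      (fun i => a i ^ 3) (fun j => b j ^ 3)
    have h2 := sum_six_le _ a ha r har
    have h3 := sum_six_le _ b hb r hbr
    have h4 : 0 ≤ r ^ 2 := by positivity
    have h5 : r ^ 2 * ∑ i ∈ I.erase k, a i ^ 4 ≤ r ^ 2 * r ^ 4 := mul_le_mul_of_nonneg_left hsa' h4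
    have h6 : r ^ 2 * ∑ i ∈ I.erase k, b i ^ 4 ≤ r ^ 2 * r ^ 4 := mul_le_mul_of_nonneg_left hsb' h4
    have h7 : r ^ 2 * r ^ 4 = r ^ 6 := by ring
    linarith
  have hr3 : 0 ≤ r ^ 3 := by positivity
  have row : ∑ j ∈ I.erase k, l ^ dd k j * (a k ^ 3 * b j ^ 3) ≤ 4 * l * r ^ 3 := by
    have : ∑ j ∈ I.erase k, l ^ dd k j * (a k ^ 3 * b j ^ 3) ≤
        ∑ j ∈ I.erase k, l ^ dd k j * r ^ 3 := by
      apply sum_le_sum; intro j hj
      apply mul_le_mul_of_nonneg_left _ (by positivity)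
      have c1 : a k ^ 3 ≤ 1 := pow_le_one₀ (ha k) (ha1 k hk)
      have c2 : b j ^ 3 ≤ r ^ 3 := pow_le_pow_left₀ (hb j) (hbr j hj) 3
      have c3 : 0 ≤ b j ^ 3 := by have := hb j; positivity
      nlinarith
    rw [← sum_mul] at this
    have h2 := geom_off l h0 hl I k
    nlinarith
  have col : ∑ i ∈ I.erase k, l ^ dd i k * (a i ^ 3 * b k ^ 3) ≤ 4 * l * r ^ 3 := by
    have : ∑ i ∈ I.erase k, l ^ dd i k * (a i ^ 3 * b k ^ 3) ≤
        ∑ i ∈ I.erase k, l ^ dd k i * r ^ 3 := by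
      apply sum_le_sum; intro j hj
      rw [dd_comm]
      apply mul_le_mul_of_nonneg_left _ (by positivity)
      have c1 : b k ^ 3 ≤ 1 := pow_le_one₀ (hb k) (hb1 k hk)
      have c2 : a j ^ 3 ≤ r ^ 3 := pow_le_pow_left₀ (ha j) (har j hj) 3
      have c3 : 0 ≤ a j ^ 3 := by have := ha j; positivity
      nlinarith
    rw [← sum_mul] at this
    have h2 := geom_off l h0 hl I k
    nlinarith
  have diag : a k ^ 3 * b k ^ 3 ≤ 1 - 3 / 4 * R := by
    have c1 : a k ^ 3 ≤ 1 := pow_le_one₀ (ha k) (ha1 k hk)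
    have c2 : b k ^ 3 ≤ 1 := pow_le_one₀ (hb k) (hb1 k hk)
    have c3 : 0 ≤ a k ^ 3 := by have := ha k; positivity
    have c4 : 0 ≤ b k ^ 3 := by have := hb k; positivity
    have am : ∀ x : ℝ, 4 * x ^ 3 ≤ 1 + 3 * x ^ 4 := by
      intro x
      have : 0 ≤ (x - 1) ^ 2 * (3 * x ^ 2 + 2 * x + 1) := by
        apply mul_nonneg (sq_nonneg _); nlinarith [sq_nonneg (x + 1), sq_nonneg x]
      nlinarith
    have d1 := am (a k)
    have d2 := am (b k)
    have d3 : a k ^ 3 * b k ^ 3 ≤ a k ^ 3 := by nlinarith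
    have d4 : a k ^ 3 * b k ^ 3 ≤ b k ^ 3 := by nlinarith
    rcases le_total (1 - a k ^ 4) (1 - b k ^ 4) with h | h
    · rw [hR, max_eq_right h]; linarith
    · rw [hR, max_eq_left h]; linarith
  rw [sum_split I k hk, dd_self, pow_zero, one_mul] at hm
  have main : 3 / 4 * r ^ 4 ≤ 8 * l * r ^ 3 + 3 * r ^ 6 := by
    rw [hr4]; linarith
  have hr2 : r ^ 2 ≤ 1 / 12 := by
    have : (r ^ 2) ^ 2 ≤ (1 / 12) ^ 2 := by
      have : (r ^ 2) ^ 2 = r ^ 4 := by ring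
      rw [this, hr4]; linarith
    exact (pow_le_pow_iff_left₀ (by positivity) (by norm_num) (by norm_num)).1 this
  have hr16 : r ≤ 16 * l := by
    by_contra hcon
    push Not at hcon
    have hrpos : 0 < r := by linarith
    have c1 : 3 * r ^ 6 ≤ 1 / 4 * r ^ 4 := by
      have : 0 ≤ r ^ 4 := by positivity
      nlinarith
    have c2 : 1 / 2 * r ^ 4 ≤ 8 * l * r ^ 3 := by linarith
    have c3 : 0 < r ^ 3 := by positivity
    have c4 : 1 / 2 * r ^ 4 = (1 / 2 * r) * r ^ 3 := by ring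
    rw [c4] at c2
    have := le_of_mul_le_mul_right c2 c3
    linarith
  refine ⟨k, last.trans ?_⟩
  have := pow_le_pow_left₀ hr0 hr16 6
  rw [mul_pow] at this
  linarith

end Pool.Agent.Lib.MP_a0e7a4_nt
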