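import Mathlib

set_option autoImplicit false

open Finset

namespace Pool.Agent.Lib.MP_a0e7a4_nt

/-- no two distinct elements have a ratio of height at most `z` -/
def Sep (z : ℕ) (A : Finset ℕ) : Prop :=
  ∀ a ∈ A, ∀ a' ∈ A, ∀ j j' : ℕ, 0 < j → j ≤ z → 0 < j' → j' ≤ z → a * j = a' * j' → a = a'

lemma Sep.mono {z z' : ℕ} {A B : Finset ℕ} (h : Sep z' A) (hz : z ≤ z') (hB : B ⊆ A) :
    Sep z B := fun a ha a' ha' j j' h1 h2 h3 h4 h5 =>
  h a (hB ha) a' (hB ha') j j' h1 (h2.trans hz) h3 (h4.trans hz) h5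

lemma exists_totient_small (γ : ℝ) (hγ : 0 < γ) :
    ∃ Q : ℕ, 0 < Q ∧ (Nat.totient Q : ℝ) ≤ γ * Q := by
  obtain ⟨u, hu⟩ : ∃ u : Finset ℕ, -Real.log γ <
      ∑ x ∈ u, Set.indicator {p : ℕ | p.Prime} (fun n : ℕ ↦ (1 : ℝ) / n) x := by
    by_contra hcon
    push Not at hcon
    apply not_summable_one_div_on_primes
    exact summable_of_sum_le (fun n => Set.indicator_nonneg (fun p _ => by positivity) _) hcon
  set P := u.filter Nat.Prime with hP
  have hsum : ∑ x ∈ u, Set.indicator {p : ℕ | p.Prime} (fun n : ℕ ↦ (1 : ℝ) / n) x =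
      ∑ x ∈ P, (1 : ℝ) / x := by
    rw [hP, sum_filter]
    apply sum_congr rfl; intro x _
    by_cases hx : x.Prime <;> simp [Set.indicator, hx]
  have hPp : ∀ p ∈ P, p.Prime := fun p hp => (mem_filter.1 hp).2
  refine ⟨∏ p ∈ P, p, prod_pos (fun p hp => (hPp p hp).pos), ?_⟩
  have h1 := Nat.totient_eq_mul_prod_factors (∏ p ∈ P, p)
  rw [Nat.primeFactors_prod hPp] at h1
  have h2 : ((Nat.totient (∏ p ∈ P, p) : ℕ) : ℝ) =
      ((∏ p ∈ P, p : ℕ) : ℝ) * ∏ p ∈ P, (1 - (p : ℝ)⁻¹) := by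
    have := congrArg (fun q : ℚ => (q : ℝ)) h1
    simpa using this
  rw [h2, mul_comm]
  apply mul_le_mul_of_nonneg_right _ (by positivity)
  calc ∏ p ∈ P, (1 - (p : ℝ)⁻¹) ≤ ∏ p ∈ P, Real.exp (-((1 : ℝ) / p)) := by
        apply prod_le_prod
        · intro p hp
          have : (1 : ℝ) ≤ p := by exact_mod_cast (hPp p hp).one_lt.le
          have := inv_le_one_of_one_le₀ this
          linarith
        · intro p _
          rw [one_div]; exact Real.one_sub_le_exp_neg _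
    _ = Real.exp (-(∑ p ∈ P, (1 : ℝ) / p)) := by
        rw [← Real.exp_sum, sum_neg_distrib]
    _ ≤ Real.exp (Real.log γ) := by
        apply Real.exp_le_exp.2; linarith
    _ = γ := Real.exp_log hγ

lemma card_multiples (s q : ℕ) (_hq : 0 < q) :
    (((Icc 1 s).filter (fun m => q ∣ m)).card : ℝ) ≤ s / q := by
  have : (Icc 1 s).filter (fun m => q ∣ m) = (Ioc 0 s).filter (fun m => q ∣ m) := by
    congr 1
  rw [this, Nat.Ioc_filter_dvd_card_eq_div]
  exact Nat.cast_div_le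

theorem sieve (γ : ℝ) (hγ : 0 < γ) : ∃ (z : ℕ) (M : ℝ), 0 ≤ M ∧ ∀ (D : Finset ℕ) (s : ℝ), 0 ≤ s →
    Sep z D → (∀ m ∈ D, 0 < m ∧ (m : ℝ) ≤ s) → (D.card : ℝ) ≤ γ * s + M := by
  obtain ⟨Q, hQ, hφ⟩ := exists_totient_small (γ / 2) (by linarith)
  have hQr : (0 : ℝ) < Q := by exact_mod_cast hQ
  obtain ⟨e, he⟩ := pow_unbounded_of_one_lt (2 * Q / γ) (one_lt_two (α := ℝ))
  refine ⟨Q ^ e, Nat.totient Q, by positivity, ?_⟩
  intro D s hs hsep hD
  set N := ⌊s⌋₊ with hN
  have hNs : (N : ℝ) ≤ s := Nat.floor_le hs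
  have hDN : ∀ m ∈ D, m ∈ Icc 1 N := fun m hm =>
    mem_Icc.2 ⟨(hD m hm).1, Nat.le_floor (hD m hm).2⟩
  set r : ℕ → ℕ := fun m => m / Nat.gcd m (Q ^ e) with hr
  have hQe : 0 < Q ^ e := pow_pos hQ e
  have hsplit := card_filter_add_card_filter_not (s := D) (fun m => Q.Coprime (r m))
  have h1 : (D.filter (fun m => Q.Coprime (r m))).card ≤
      ((Ico 1 (1 + N)).filter (fun x => Q.Coprime x)).card := by
    apply card_le_card_of_injOn r
    · intro m hm
      simp only [coe_filter, Set.mem_ofPred_eq] at hm ⊢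
      refine ⟨?_, hm.2⟩
      have h := mem_Icc.1 (hDN m hm.1)
      have hg : 0 < Nat.gcd m (Q ^ e) := Nat.gcd_pos_of_pos_right _ hQe
      have : 0 < r m := Nat.div_pos (Nat.gcd_le_left _ h.1) hg
      have : r m ≤ m := Nat.div_le_self _ _
      rw [mem_Ico]; omega
    · intro m hm m' hm' hmm
      simp only [coe_filter, Set.mem_ofPred_eq] at hm hm'
      apply hsep m hm.1 m' hm'.1 (Nat.gcd m' (Q ^ e)) (Nat.gcd m (Q ^ e))
        (Nat.gcd_pos_of_pos_right _ hQe) (Nat.gcd_le_right _ hQe)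
        (Nat.gcd_pos_of_pos_right _ hQe) (Nat.gcd_le_right _ hQe)
      have e1 : r m * Nat.gcd m (Q ^ e) = m := Nat.div_mul_cancel (Nat.gcd_dvd_left _ _)
      have e2 : r m' * Nat.gcd m' (Q ^ e) = m' := Nat.div_mul_cancel (Nat.gcd_dvd_left _ _)
      calc m * Nat.gcd m' (Q ^ e) = r m * Nat.gcd m (Q ^ e) * Nat.gcd m' (Q ^ e) := by rw [e1]
        _ = r m' * Nat.gcd m' (Q ^ e) * Nat.gcd m (Q ^ e) := by rw [hmm]; ring
        _ = m' * Nat.gcd m (Q ^ e) := by rw [e2]
  have h2 := Nat.Ico_filter_coprime_le 1 N hQ.ne'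
  have h3 : D.filter (fun m => ¬ Q.Coprime (r m)) ⊆
      Q.primeFactors.biUnion (fun p => (Icc 1 N).filter (fun m => p ^ e ∣ m)) := by
    intro m hm
    rw [mem_filter] at hm
    obtain ⟨p, hp, hpQ, hpr⟩ := Nat.Prime.not_coprime_iff_dvd.1 hm.2
    rw [mem_biUnion]
    refine ⟨p, Nat.mem_primeFactors.2 ⟨hp, hpQ, hQ.ne'⟩, mem_filter.2 ⟨hDN m hm.1, ?_⟩⟩
    have hm0 : m ≠ 0 := (hD m hm.1).1.ne'
    have hg : 0 < Nat.gcd m (Q ^ e) := Nat.gcd_pos_of_pos_right _ hQe
    have e1 : r m * Nat.gcd m (Q ^ e) = m := Nat.div_mul_cancel (Nat.gcd_dvd_left _ _)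
    have hr0 : r m ≠ 0 := by
      intro h; rw [h] at e1; simp at e1; exact hm0 e1.symm
    have f1 : m.factorization p = (r m).factorization p + (Nat.gcd m (Q ^ e)).factorization p := by
      conv_lhs => rw [← e1]
      rw [Nat.factorization_mul hr0 hg.ne']; rfl
    have f2 : 1 ≤ (r m).factorization p := (hp.dvd_iff_one_le_factorization hr0).1 hpr
    have f3 : (Nat.gcd m (Q ^ e)).factorization p =
        min (m.factorization p) ((Q ^ e).factorization p) := by
      rw [Nat.factorization_gcd hm0 hQe.ne']; rfl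
    have f4 : (Q ^ e).factorization p = e * Q.factorization p := by
      rw [Nat.factorization_pow]; rfl
    have f5 : 1 ≤ Q.factorization p := (hp.dvd_iff_one_le_factorization hQ.ne').1 hpQ
    have f6 : e ≤ e * Q.factorization p := Nat.le_mul_of_pos_right _ f5
    rw [hp.pow_dvd_iff_le_factorization hm0]
    omega
  have h4 : ((D.filter (fun m => ¬ Q.Coprime (r m))).card : ℝ) ≤ Q * (N / 2 ^ e) := by
    have c1 := (card_le_card h3).trans card_biUnion_le
    have c2 : (((D.filter (fun m => ¬ Q.Coprime (r m))).card : ℕ) : ℝ) ≤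
        ∑ p ∈ Q.primeFactors, (((Icc 1 N).filter (fun m => p ^ e ∣ m)).card : ℝ) := by
      exact_mod_cast c1
    refine c2.trans ?_
    have c3 : ∑ p ∈ Q.primeFactors, (((Icc 1 N).filter (fun m => p ^ e ∣ m)).card : ℝ) ≤
        ∑ p ∈ Q.primeFactors, ((N : ℝ) / 2 ^ e) := by
      apply sum_le_sum; intro p hp
      have hp' := (Nat.mem_primeFactors.1 hp).1
      refine (card_multiples N (p ^ e) (pow_pos hp'.pos e)).trans ?_
      apply div_le_div_of_nonneg_left (by positivity) (by positivity)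
      push_cast
      apply pow_le_pow_left₀ (by norm_num)
      exact_mod_cast hp'.two_le
    refine c3.trans ?_
    rw [sum_const, nsmul_eq_mul]
    apply mul_le_mul_of_nonneg_right _ (by positivity)
    have : Q.primeFactors ⊆ Icc 1 Q := by
      intro p hp
      have hp' := Nat.mem_primeFactors.1 hp
      exact mem_Icc.2 ⟨hp'.1.pos, Nat.le_of_dvd hQ hp'.2.1⟩
    have := card_le_card this
    simp at this
    exact_mod_cast this
  have h5 : ((D.filter (fun m => Q.Coprime (r m))).card : ℝ) ≤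
      Nat.totient Q * (N / Q + 1) := by
    have c1 : (((D.filter (fun m => Q.Coprime (r m))).card : ℕ) : ℝ) ≤
        ((Nat.totient Q * (N / Q + 1) : ℕ) : ℝ) := by exact_mod_cast h1.trans h2
    refine c1.trans ?_
    push_cast
    apply mul_le_mul_of_nonneg_left _ (by positivity)
    have : ((N / Q : ℕ) : ℝ) ≤ N / Q := Nat.cast_div_le
    linarith
  have h6 : (D.card : ℝ) = ((D.filter (fun m => Q.Coprime (r m))).card : ℝ) +
      ((D.filter (fun m => ¬ Q.Coprime (r m))).card : ℝ) := by exact_mod_cast hsplit.symm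
  have h7 : (Nat.totient Q : ℝ) * (N / Q) ≤ γ / 2 * s := by
    calc (Nat.totient Q : ℝ) * (N / Q) ≤ (γ / 2 * Q) * (N / Q) :=
          mul_le_mul_of_nonneg_right hφ (by positivity)
      _ = γ / 2 * N := by field_simp
      _ ≤ γ / 2 * s := mul_le_mul_of_nonneg_left hNs (by linarith)
  have h8 : (Q : ℝ) * (N / 2 ^ e) ≤ γ / 2 * s := by
    have c1 : (Q : ℝ) / 2 ^ e ≤ γ / 2 := by
      rw [div_lt_iff₀ hγ] at he
      rw [div_le_iff₀ (by positivity)]; linarith
    calc (Q : ℝ) * (N / 2 ^ e) = (Q / 2 ^ e) * N := by ring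
      _ ≤ γ / 2 * s := mul_le_mul c1 hNs (by positivity) (by linarith)
  nlinarith

end Pool.Agent.Lib.MP_a0e7a4_nt
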