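import Mathlib
import Pool.Agent.Lib.MP_a0e7a4_nt.Conc
import Pool.Agent.Lib.MP_a0e7a4_nt.Sieve

set_option autoImplicit false

open Finset

namespace Pool.Agent.Lib.MP_a0e7a4_nt

lemma rank_le (D : Finset ℕ) (g : ℕ → ℕ) (r : ℝ) (hr : 0 ≤ r) :
    ((D.filter (fun a => ((D.filter (fun a' => g a ≤ g a')).card : ℝ) ≤ r)).card : ℝ) ≤ r := by
  set T := D.filter (fun a => ((D.filter (fun a' => g a ≤ g a')).card : ℝ) ≤ r) with hT
  rcases T.eq_empty_or_nonempty with h | h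
  · rw [h]; simpa using hr
  · obtain ⟨a, ha, hmin⟩ := exists_min_image T g h
    have h1 : T ⊆ D.filter (fun a' => g a ≤ g a') := by
      intro x hx
      exact mem_filter.2 ⟨(mem_filter.1 hx).1, hmin x hx⟩
    have h2 := (mem_filter.1 ha).2
    have h3 : (T.card : ℝ) ≤ (D.filter (fun a' => g a ≤ g a')).card := by
      exact_mod_cast card_le_card h1
    linarith

lemma triple_count (D : Finset ℕ) (P Q : ℕ → ℕ) :
    (D.card : ℝ) ^ 3 ≤ 27 * ∑ a ∈ D, ((D.filter (fun a' => P a ≤ P a')).card : ℝ) *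
      ((D.filter (fun a' => Q a ≤ Q a')).card : ℝ) := by
  set d : ℝ := (D.card : ℝ) with hd
  have hd0 : 0 ≤ d := by positivity
  have h1 := rank_le D P (d / 3) (by linarith)
  have h2 := rank_le D Q (d / 3) (by linarith)
  set T1 := D.filter (fun a => ((D.filter (fun a' => P a ≤ P a')).card : ℝ) ≤ d / 3)
  set T2 := D.filter (fun a => ((D.filter (fun a' => Q a ≤ Q a')).card : ℝ) ≤ d / 3)
  set G := D \ (T1 ∪ T2) with hG
  have h3 : d / 3 ≤ (G.card : ℝ) := by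
    have c1 : D.card ≤ G.card + (T1 ∪ T2).card := card_le_card_sdiff_add_card
    have c2 := card_union_le T1 T2
    have c3 : (D.card : ℝ) ≤ G.card + (T1.card + T2.card) := by exact_mod_cast (by omega)
    linarith
  have h4 : ∑ a ∈ G, (d / 3) * (d / 3) ≤ ∑ a ∈ D, ((D.filter (fun a' => P a ≤ P a')).card : ℝ) *
      ((D.filter (fun a' => Q a ≤ Q a')).card : ℝ) := by
    calc ∑ a ∈ G, (d / 3) * (d / 3) ≤ ∑ a ∈ G, ((D.filter (fun a' => P a ≤ P a')).card : ℝ) *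
      ((D.filter (fun a' => Q a ≤ Q a')).card : ℝ) := by
          apply sum_le_sum; intro a ha
          rw [hG, mem_sdiff, mem_union, not_or] at ha
          have c1 : ¬ ((D.filter (fun a' => P a ≤ P a')).card : ℝ) ≤ d / 3 :=
            fun h => ha.2.1 (mem_filter.2 ⟨ha.1, h⟩)
          have c2 : ¬ ((D.filter (fun a' => Q a ≤ Q a')).card : ℝ) ≤ d / 3 :=
            fun h => ha.2.2 (mem_filter.2 ⟨ha.1, h⟩)
          push Not at c1 c2
          exact mul_le_mul c1.le c2.le (by linarith) (by positivity)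
      _ ≤ _ := sum_le_sum_of_subset_of_nonneg sdiff_subset (fun _ _ _ => by positivity)
  rw [sum_const, nsmul_eq_mul] at h4
  have h5 : (d / 3) * ((d / 3) * (d / 3)) ≤ G.card * ((d / 3) * (d / 3)) :=
    mul_le_mul_of_nonneg_right h3 (by positivity)
  nlinarith

lemma sum_fiber (A B : Finset ℕ) (Ω : Finset (ℕ × ℕ)) (hΩ : Ω ⊆ A ×ˢ B) (g : ℕ × ℕ → ℝ) :
    ∑ x ∈ Ω, g x = ∑ b ∈ B, ∑ a ∈ A.filter (fun a => (a, b) ∈ Ω), g (a, b) := by
  have : ∑ x ∈ Ω, g x = ∑ x ∈ A ×ˢ B, if x ∈ Ω then g x else 0 := by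
    rw [← sum_filter, filter_mem_eq_inter, inter_eq_right.2 hΩ]
  rw [this, sum_product_right]
  apply sum_congr rfl; intro b _
  rw [sum_filter]

lemma star (A B : Finset ℕ) (hA : A.Nonempty) (Ω : Finset (ℕ × ℕ)) (hΩ : Ω ⊆ A ×ˢ B)
    (P Q : ℕ → ℕ) :
    ∃ a1 ∈ A, ∃ a2 ∈ A, (Ω.card : ℝ) ^ 3 ≤ 27 * (A.card : ℝ) ^ 2 * (B.card : ℝ) ^ 2 *
      ((Ω.filter (fun x => ((a1, x.2) ∈ Ω ∧ P x.1 ≤ P a1) ∧
        ((a2, x.2) ∈ Ω ∧ Q x.1 ≤ Q a2))).card : ℝ) := by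
  set N : ℕ × ℕ → ℝ := fun y => ((Ω.filter (fun x => ((y.1, x.2) ∈ Ω ∧ P x.1 ≤ P y.1) ∧
        ((y.2, x.2) ∈ Ω ∧ Q x.1 ≤ Q y.2))).card : ℝ) with hN
  obtain ⟨y, hy, hmax⟩ := exists_max_image (A ×ˢ A) N (hA.product hA)
  refine ⟨y.1, (mem_product.1 hy).1, y.2, (mem_product.1 hy).2, ?_⟩
  change _ ≤ _ * N y
  set D : ℕ → Finset ℕ := fun b => A.filter (fun a => (a, b) ∈ Ω) with hD
  have h1 : ∑ y' ∈ A ×ˢ A, N y' ≤ (A.card : ℝ) ^ 2 * N y := by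
    have := sum_le_card_nsmul (A ×ˢ A) N (N y) hmax
    rw [card_product, nsmul_eq_mul] at this
    push_cast at this
    nlinarith
  have h2 : ∑ y' ∈ A ×ˢ A, N y' = ∑ x ∈ Ω, (((D x.2).filter (fun a' => P x.1 ≤ P a')).card : ℝ) *
      (((D x.2).filter (fun a' => Q x.1 ≤ Q a')).card : ℝ) := by
    simp only [hN, card_filter, Nat.cast_sum]
    rw [sum_comm]
    apply sum_congr rfl; intro x _
    simp only [hD, sum_filter]
    rw [sum_mul_sum, sum_product]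
    apply sum_congr rfl; intro a1 _
    apply sum_congr rfl; intro a2 _
    by_cases c1 : (a1, x.2) ∈ Ω <;> by_cases c2 : P x.1 ≤ P a1 <;>
      by_cases c3 : (a2, x.2) ∈ Ω <;> by_cases c4 : Q x.1 ≤ Q a2 <;> simp [c1, c2, c3, c4]
  rw [sum_fiber A B Ω hΩ] at h2
  have h3 : ∑ b ∈ B, ((D b).card : ℝ) ^ 3 ≤ 27 * ∑ y' ∈ A ×ˢ A, N y' := by
    rw [h2, mul_sum]
    apply sum_le_sum; intro b _
    exact triple_count (D b) P Q
  have h4 : (Ω.card : ℝ) = ∑ b ∈ B, ((D b).card : ℝ) := by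
    have := sum_fiber A B Ω hΩ (fun _ => 1)
    simpa using this
  have h5 := pow_sum_le_card_mul_sum_pow (s := B) (f := fun b => ((D b).card : ℝ))
    (fun _ _ => by positivity) 2
  rw [← h4] at h5
  have h6 : (0 : ℝ) ≤ (B.card : ℝ) ^ 2 := by positivity
  calc (Ω.card : ℝ) ^ 3 ≤ (B.card : ℝ) ^ 2 * ∑ b ∈ B, ((D b).card : ℝ) ^ 3 := h5
    _ ≤ (B.card : ℝ) ^ 2 * (27 * ((A.card : ℝ) ^ 2 * N y)) := by
        apply mul_le_mul_of_nonneg_left _ h6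
        linarith
    _ = _ := by ring

lemma fiber_count (z : ℕ) (A : Finset ℕ) (u w : ℕ → ℕ) (s t G : ℝ) (ht : 0 ≤ t) (hG : 0 ≤ G)
    (hGs : ∀ D : Finset ℕ, Sep z D → (∀ m ∈ D, 0 < m ∧ (m : ℝ) ≤ s) → (D.card : ℝ) ≤ G)
    (hu : ∀ a ∈ A, 0 < u a ∧ (u a : ℝ) ≤ s) (hw : ∀ a ∈ A, 0 < w a ∧ (w a : ℝ) ≤ t)
    (hinj : ∀ a ∈ A, ∀ a' ∈ A, w a = w a' → u a = u a' → a = a')
    (hsep : ∀ a ∈ A, ∀ a' ∈ A, w a = w a' → ∀ j j' : ℕ, 0 < j → j ≤ z → 0 < j' → j' ≤ z →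
      u a * j = u a' * j' → a = a') :
    (A.card : ℝ) ≤ G * t := by
  have h1 : A.card = ∑ m ∈ Icc 1 ⌊t⌋₊, (A.filter (fun a => w a = m)).card := by
    apply card_eq_sum_card_fiberwise
    intro a ha
    have := hw a ha
    simp only [coe_Icc, Set.mem_Icc]
    exact ⟨this.1, Nat.le_floor this.2⟩
  have h2 : ∀ m, ((A.filter (fun a => w a = m)).card : ℝ) ≤ G := by
    intro m
    have c1 : (A.filter (fun a => w a = m)).card = ((A.filter (fun a => w a = m)).image u).card := by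
      symm; apply card_image_of_injOn
      intro a ha a' ha' h
      simp only [coe_filter, Set.mem_ofPred_eq] at ha ha'
      exact hinj a ha.1 a' ha'.1 (ha.2.trans ha'.2.symm) h
    rw [c1]
    apply hGs
    · intro x hx x' hx' j j' h1 h2 h3 h4 h5
      obtain ⟨a, ha, rfl⟩ := mem_image.1 hx
      obtain ⟨a', ha', rfl⟩ := mem_image.1 hx'
      rw [mem_filter] at ha ha'
      rw [hsep a ha.1 a' ha'.1 (ha.2.trans ha'.2.symm) j j' h1 h2 h3 h4 h5]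
    · intro x hx
      obtain ⟨a, ha, rfl⟩ := mem_image.1 hx
      exact hu a (mem_filter.1 ha).1
  have h3 : (A.card : ℝ) ≤ ∑ m ∈ Icc 1 ⌊t⌋₊, G := by
    rw [h1]; push_cast
    exact sum_le_sum (fun m _ => h2 m)
  rw [sum_const, nsmul_eq_mul] at h3
  simp only [Nat.card_Icc, add_tsub_cancel_right] at h3
  have := Nat.floor_le ht
  nlinarith

lemma triv_count (z : ℕ) (s : ℝ) (hs : 0 ≤ s) (D : Finset ℕ) (_h : Sep z D)
    (hD : ∀ m ∈ D, 0 < m ∧ (m : ℝ) ≤ s) : (D.card : ℝ) ≤ s := by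
  have : D ⊆ Icc 1 ⌊s⌋₊ := fun m hm => mem_Icc.2 ⟨(hD m hm).1, Nat.le_floor (hD m hm).2⟩
  have h := card_le_card this
  simp only [Nat.card_Icc, add_tsub_cancel_right] at h
  have h2 : (D.card : ℝ) ≤ ⌊s⌋₊ := by exact_mod_cast h
  exact h2.trans (Nat.floor_le hs)

lemma box (γ M : ℝ) (hγ : 0 ≤ γ) (hM : 0 ≤ M) (z : ℕ)
    (hS : ∀ (D : Finset ℕ) (s : ℝ), 0 ≤ s → Sep z D → (∀ m ∈ D, 0 < m ∧ (m : ℝ) ≤ s) →
      (D.card : ℝ) ≤ γ * s + M)
    (A : Finset ℕ) (hA : Sep z A) (u w : ℕ → ℕ) (C : ℕ)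
    (hid : ∀ a ∈ A, a * w a = C * u a) (s t : ℝ) (hs : 0 ≤ s) (ht : 0 ≤ t)
    (hu : ∀ a ∈ A, 0 < u a ∧ (u a : ℝ) ≤ s) (hw : ∀ a ∈ A, 0 < w a ∧ (w a : ℝ) ≤ t) :
    (A.card : ℝ) ≤ s * t ∧ (A.card : ℝ) ≤ (γ * s + M) * t ∧ (A.card : ℝ) ≤ (γ * t + M) * s := by
  have hinj : ∀ a ∈ A, ∀ a' ∈ A, w a = w a' → u a = u a' → a = a' := by
    intro a ha a' ha' h1 h2
    have e1 := hid a ha
    have e2 := hid a' ha'
    rw [← h1, ← h2, ← e1] at e2
    exact (Nat.eq_of_mul_eq_mul_right (hw a ha).1 e2).symm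
  have hsep1 : ∀ a ∈ A, ∀ a' ∈ A, w a = w a' → ∀ j j' : ℕ, 0 < j → j ≤ z → 0 < j' → j' ≤ z →
      u a * j = u a' * j' → a = a' := by
    intro a ha a' ha' h j j' h1 h2 h3 h4 h5
    apply hA a ha a' ha' j j' h1 h2 h3 h4
    apply Nat.eq_of_mul_eq_mul_right (hw a ha).1
    calc a * j * w a = (a * w a) * j := by ring
      _ = C * (u a * j) := by rw [hid a ha]; ring
      _ = C * u a' * j' := by rw [h5]; ring
      _ = a' * w a' * j' := by rw [hid a' ha']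
      _ = a' * j' * w a := by rw [h]; ring
  have hsep2 : ∀ a ∈ A, ∀ a' ∈ A, u a = u a' → ∀ j j' : ℕ, 0 < j → j ≤ z → 0 < j' → j' ≤ z →
      w a * j = w a' * j' → a = a' := by
    intro a ha a' ha' h j j' h1 h2 h3 h4 h5
    apply hA a ha a' ha' j' j h3 h4 h1 h2
    apply Nat.eq_of_mul_eq_mul_right (hw a ha).1
    calc a * j' * w a = (a * w a) * j' := by ring
      _ = C * u a' * j' := by rw [hid a ha, h]
      _ = a' * (w a' * j') := by rw [← hid a' ha']; ring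
      _ = a' * j * w a := by rw [← h5]; ring
  refine ⟨fiber_count z A u w s t s ht hs (triv_count z s hs) hu hw hinj hsep1,
    fiber_count z A u w s t _ ht (by positivity) (fun D => hS D s hs) hu hw hinj hsep1,
    fiber_count z A w u t s _ hs (by positivity) (fun D => hS D t ht) hw hu
      (fun a ha a' ha' h1 h2 => hinj a ha a' ha' h2 h1) hsep2⟩

end Pool.Agent.Lib.MP_a0e7a4_nt
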