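import Mathlib
import Pool.Agent.Lib.MP_a0e7a4_nt.Star

set_option autoImplicit false

open Finset

namespace Pool.Agent.Lib.MP_a0e7a4_nt

/-- one-sided height over the set `S` -/
def ht (S : Finset ℕ) (u w : ℕ → ℕ) : ℕ := ∏ p ∈ S, p ^ (u p - w p)

/-- all elements of `A` agree outside `S` -/
def Rep (f : ℕ → ℕ → ℕ) (S A : Finset ℕ) : Prop :=
  ∃ c : ℕ, ∀ a ∈ A, a = c * ∏ p ∈ S, p ^ (f a p)

noncomputable def Phi (γ M T : ℝ) : ℝ := γ * T + M * T ^ (3 / 4 : ℝ)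

noncomputable def lam (p : ℕ) : ℝ := (p : ℝ) ^ (-(3 / 16) : ℝ)

lemma lam_nonneg (p : ℕ) : 0 ≤ lam p := Real.rpow_nonneg (by positivity) _

lemma ht_pos (S : Finset ℕ) (hS : ∀ p ∈ S, 2 ≤ p) (u w : ℕ → ℕ) : 0 < ht S u w :=
  prod_pos (fun p hp => pow_pos (by have := hS p hp; omega) _)

lemma Phi_nonneg {γ M T : ℝ} (hγ : 0 ≤ γ) (hM : 0 ≤ M) (hT : 0 ≤ T) : 0 ≤ Phi γ M T := by
  unfold Phi; positivity

lemma Phi_scale {γ M T : ℝ} (hγ : 0 ≤ γ) (_hM : 0 ≤ M) (hT : 0 ≤ T) (p d : ℕ) (hp : 2 ≤ p) :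
    Phi γ M (T / (p : ℝ) ^ d) ≤ (lam p ^ d) ^ 4 * Phi γ M T := by
  have hp1 : (1 : ℝ) ≤ p := by exact_mod_cast (by omega : 1 ≤ p)
  have hq : (1 : ℝ) ≤ (p : ℝ) ^ d := one_le_pow₀ hp1
  set q : ℝ := (p : ℝ) ^ d with hqd
  have hq0 : 0 < q := by linarith
  have e : (lam p ^ d) ^ 4 = q ^ (-(3 / 4) : ℝ) := by
    rw [hqd, lam, ← pow_mul, ← Real.rpow_natCast, ← Real.rpow_mul (by positivity),
      ← Real.rpow_natCast, ← Real.rpow_mul (by positivity)]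
    congr 1; push_cast; ring
  rw [e]
  unfold Phi
  have h1 : T / q ≤ q ^ (-(3 / 4) : ℝ) * T := by
    have : q ^ (-1 : ℝ) ≤ q ^ (-(3 / 4) : ℝ) := Real.rpow_le_rpow_of_exponent_le hq (by norm_num)
    rw [Real.rpow_neg_one] at this
    rw [div_eq_mul_inv, mul_comm]
    exact mul_le_mul_of_nonneg_right this hT
  have h2 : (T / q) ^ (3 / 4 : ℝ) = q ^ (-(3 / 4) : ℝ) * T ^ (3 / 4 : ℝ) := by
    rw [Real.div_rpow hT hq0.le, Real.rpow_neg hq0.le]; ring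
  rw [h2]
  nlinarith [mul_le_mul_of_nonneg_left h1 hγ]

lemma four_sides {γ M : ℝ} (_hγ : 0 ≤ γ) (hM : 0 ≤ M) (x y : ℝ) (hx : 0 ≤ x) (hy : 0 ≤ y)
    (h : y ≤ x ^ 3) : (γ * x + M) * y ≤ Phi γ M (x * y) := by
  unfold Phi
  have h1 : y ≤ (x * y) ^ (3 / 4 : ℝ) := by
    have c1 : y ^ 4 ≤ ((x * y) ^ (3 / 4 : ℝ)) ^ 4 := by
      rw [← Real.rpow_natCast ((x * y) ^ (3 / 4 : ℝ)), ← Real.rpow_mul (by positivity)]
      norm_num
      rw [mul_pow]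
      have : 0 ≤ y ^ 3 := by positivity
      calc y ^ 4 = y * y ^ 3 := by ring
        _ ≤ x ^ 3 * y ^ 3 := mul_le_mul_of_nonneg_right h this
    exact (pow_le_pow_iff_left₀ hy (by positivity) (by norm_num)).1 c1
  nlinarith [mul_le_mul_of_nonneg_left h1 hM]

lemma rep_id (f : ℕ → ℕ → ℕ) (S : Finset ℕ) (c a : ℕ) (k : ℕ → ℕ)
    (h : a = c * ∏ p ∈ S, p ^ (f a p)) :
    a * ht S k (f a) = (c * ∏ p ∈ S, p ^ (k p)) * ht S (f a) k := by
  unfold ht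
  conv_lhs => rw [h]
  rw [mul_assoc, mul_assoc, ← prod_mul_distrib, ← prod_mul_distrib]
  congr 1
  apply prod_congr rfl; intro p _
  rw [← pow_add, ← pow_add]
  congr 1
  rw [← h]
  omega

lemma ht_split (S : Finset ℕ) (u w k : ℕ → ℕ) (h : ∀ p ∈ S, u p = k p ∨ w p = k p) :
    ht S u w = ht S u k * ht S k w := by
  unfold ht
  rw [← prod_mul_distrib]
  apply prod_congr rfl; intro p hp
  rw [← pow_add]
  congr 1
  have := h p hp
  omega

/-- the structured case -/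
lemma structured (γ M : ℝ) (hγ : 0 ≤ γ) (hM : 0 ≤ M) (z : ℕ)
    (hS : ∀ (D : Finset ℕ) (s : ℝ), 0 ≤ s → Sep z D → (∀ m ∈ D, 0 < m ∧ (m : ℝ) ≤ s) →
      (D.card : ℝ) ≤ γ * s + M)
    (f : ℕ → ℕ → ℕ) (S : Finset ℕ) (hS2 : ∀ p ∈ S, 2 ≤ p) (A B : Finset ℕ) (Ω : Finset (ℕ × ℕ))
    (X Y : ℝ) (hX0 : 0 ≤ X) (hY0 : 0 ≤ Y) (hΩ : Ω ⊆ A ×ˢ B)
    (hX : ∀ x ∈ Ω, (ht S (f x.1) (f x.2) : ℝ) ≤ X) (hY : ∀ x ∈ Ω, (ht S (f x.2) (f x.1) : ℝ) ≤ Y)
    (hA : Rep f S A) (hB : Rep f S B) (sA : Sep z A) (sB : Sep z B) (k : ℕ → ℕ)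
    (hk : ∀ x ∈ Ω, ∀ p ∈ S, f x.1 p = k p ∨ f x.2 p = k p) :
    (Ω.card : ℝ) ^ 3 ≤ 27 * (A.card : ℝ) ^ 2 * (B.card : ℝ) ^ 2 * Phi γ M (X * Y) := by
  have hPhi : 0 ≤ Phi γ M (X * Y) := Phi_nonneg hγ hM (by positivity)
  rcases A.eq_empty_or_nonempty with hAe | hAe
  · subst hAe
    simp only [empty_product, subset_empty] at hΩ
    subst hΩ; simp
  set P : ℕ → ℕ := fun a => ht S (f a) k with hP
  set Q : ℕ → ℕ := fun a => ht S k (f a) with hQ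
  obtain ⟨a1, -, a2, -, h⟩ := star A B hAe Ω hΩ P Q
  refine h.trans (mul_le_mul_of_nonneg_left ?_ (by positivity))
  set F := Ω.filter (fun x => ((a1, x.2) ∈ Ω ∧ P x.1 ≤ P a1) ∧ ((a2, x.2) ∈ Ω ∧ Q x.1 ≤ Q a2))
    with hF
  rcases F.eq_empty_or_nonempty with hFe | hFe
  · rw [hFe]; simpa using hPhi
  have hPpos : ∀ a, (1 : ℝ) ≤ P a := fun a => by exact_mod_cast ht_pos S hS2 _ _
  have hQpos : ∀ a, (1 : ℝ) ≤ Q a := fun a => by exact_mod_cast ht_pos S hS2 _ _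
  set s : ℝ := (P a1 : ℝ) with hs
  set t : ℝ := (Q a2 : ℝ) with ht'
  have hs1 : 1 ≤ s := hPpos a1
  have ht1 : 1 ≤ t := hQpos a2
  have key : ∀ x ∈ F, (P x.1 : ℝ) ≤ s ∧ (Q x.1 : ℝ) ≤ t ∧ (P x.2 : ℝ) ≤ Y / t ∧
      (Q x.2 : ℝ) ≤ X / s := by
    intro x hx
    rw [hF, mem_filter] at hx
    obtain ⟨_, ⟨h1, h2⟩, h3, h4⟩ := hx
    refine ⟨by rw [hs]; exact_mod_cast h2, by rw [ht']; exact_mod_cast h4, ?_, ?_⟩
    · have c1 := hY _ h3
      rw [ht_split S _ _ k (fun p hp => (hk _ h3 p hp).symm)] at c1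
      rw [le_div_iff₀ (by linarith)]
      push_cast at c1
      exact c1
    · have c1 := hX _ h1
      rw [ht_split S _ _ k (fun p hp => (hk _ h1 p hp))] at c1
      rw [le_div_iff₀ (by linarith), mul_comm]
      push_cast at c1
      exact c1
  obtain ⟨x0, hx0⟩ := hFe
  set u : ℝ := Y / t with hu
  set w : ℝ := X / s with hw
  have hu1 : 1 ≤ u := (hPpos _).trans (key x0 hx0).2.2.1
  have hw1 : 1 ≤ w := (hQpos _).trans (key x0 hx0).2.2.2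
  set A1 := A.filter (fun a => (P a : ℝ) ≤ s ∧ (Q a : ℝ) ≤ t) with hA1
  set B1 := B.filter (fun a => (P a : ℝ) ≤ u ∧ (Q a : ℝ) ≤ w) with hB1
  have hsub : F ⊆ A1 ×ˢ B1 := by
    intro x hx
    have c1 := key x hx
    have c2 := mem_product.1 (hΩ (mem_filter.1 hx).1)
    exact mem_product.2 ⟨mem_filter.2 ⟨c2.1, c1.1, c1.2.1⟩, mem_filter.2 ⟨c2.2, c1.2.2⟩⟩
  have hcard : (F.card : ℝ) ≤ (A1.card : ℝ) * B1.card := by
    have := card_le_card hsub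
    rw [card_product] at this
    exact_mod_cast this
  obtain ⟨cA, hcA⟩ := hA
  obtain ⟨cB, hcB⟩ := hB
  obtain ⟨a1', a2', a3'⟩ := box γ M hγ hM z hS A1 (sA.mono le_rfl (filter_subset _ _)) P Q
    (cA * ∏ p ∈ S, p ^ (k p)) (fun a ha => rep_id f S cA a k (hcA a (mem_filter.1 ha).1))
    s t (by linarith) (by linarith)
    (fun a ha => ⟨ht_pos S hS2 _ _, (mem_filter.1 ha).2.1⟩)
    (fun a ha => ⟨ht_pos S hS2 _ _, (mem_filter.1 ha).2.2⟩)
  obtain ⟨b1', b2', b3'⟩ := box γ M hγ hM z hS B1 (sB.mono le_rfl (filter_subset _ _)) P Q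
    (cB * ∏ p ∈ S, p ^ (k p)) (fun a ha => rep_id f S cB a k (hcB a (mem_filter.1 ha).1))
    u w (by linarith) (by linarith)
    (fun a ha => ⟨ht_pos S hS2 _ _, (mem_filter.1 ha).2.1⟩)
    (fun a ha => ⟨ht_pos S hS2 _ _, (mem_filter.1 ha).2.2⟩)
  have hT : X * Y = s * t * u * w := by
    rw [hu, hw]; field_simp
  refine hcard.trans ?_
  have cube : ∀ m a b c : ℝ, 0 ≤ a → 0 ≤ b → 0 ≤ c → a ≤ m → b ≤ m → c ≤ m →
      a * b * c ≤ m ^ 3 := by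
    intro m a b c ha hb hc h1 h2 h3
    have hm : 0 ≤ m := ha.trans h1
    calc a * b * c ≤ m * m * m := by gcongr
      _ = m ^ 3 := by ring
  have hs0 : 0 ≤ s := by linarith
  have ht0 : 0 ≤ t := by linarith
  have hu0 : 0 ≤ u := by linarith
  have hw0 : 0 ≤ w := by linarith
  have nA : (0 : ℝ) ≤ A1.card := by positivity
  have nB : (0 : ℝ) ≤ B1.card := by positivity
  have cases4 : (t ≤ s ∧ u ≤ s ∧ w ≤ s) ∨ (s ≤ t ∧ u ≤ t ∧ w ≤ t) ∨ (s ≤ u ∧ t ≤ u ∧ w ≤ u) ∨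
      (s ≤ w ∧ t ≤ w ∧ u ≤ w) := by
    rcases le_total s t with c1 | c1 <;> rcases le_total u w with c2 | c2
    · rcases le_total t w with c3 | c3
      · right; right; right; exact ⟨by linarith, c3, c2⟩
      · right; left; exact ⟨c1, by linarith, c3⟩
    · rcases le_total t u with c3 | c3
      · right; right; left; exact ⟨by linarith, c3, c2⟩
      · right; left; exact ⟨c1, c3, by linarith⟩
    · rcases le_total s w with c3 | c3
      · right; right; right; exact ⟨c3, by linarith, c2⟩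
      · left; exact ⟨c1, by linarith, c3⟩
    · rcases le_total s u with c3 | c3
      · right; right; left; exact ⟨c3, by linarith, c2⟩
      · left; exact ⟨c1, c3, by linarith⟩
  rcases cases4 with ⟨c1, c2, c3⟩ | ⟨c1, c2, c3⟩ | ⟨c1, c2, c3⟩ | ⟨c1, c2, c3⟩
  · have := four_sides hγ hM s (t * u * w) hs0 (by positivity) (cube s t u w ht0 hu0 hw0 c1 c2 c3)
    rw [show X * Y = s * (t * u * w) by rw [hT]; ring]
    calc (A1.card : ℝ) * B1.card ≤ ((γ * s + M) * t) * (u * w) :=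
          mul_le_mul a2' b1' nB (by positivity)
      _ = (γ * s + M) * (t * u * w) := by ring
      _ ≤ _ := this
  · have := four_sides hγ hM t (s * u * w) ht0 (by positivity) (cube t s u w hs0 hu0 hw0 c1 c2 c3)
    rw [show X * Y = t * (s * u * w) by rw [hT]; ring]
    calc (A1.card : ℝ) * B1.card ≤ ((γ * t + M) * s) * (u * w) :=
          mul_le_mul a3' b1' nB (by positivity)
      _ = (γ * t + M) * (s * u * w) := by ring
      _ ≤ _ := this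
  · have := four_sides hγ hM u (s * t * w) hu0 (by positivity) (cube u s t w hs0 ht0 hw0 c1 c2 c3)
    rw [show X * Y = u * (s * t * w) by rw [hT]; ring]
    calc (A1.card : ℝ) * B1.card ≤ (s * t) * ((γ * u + M) * w) :=
          mul_le_mul a1' b2' nB (by positivity)
      _ = (γ * u + M) * (s * t * w) := by ring
      _ ≤ _ := this
  · have := four_sides hγ hM w (s * t * u) hw0 (by positivity) (cube w s t u hs0 ht0 hu0 c1 c2 c3)
    rw [show X * Y = w * (s * t * u) by rw [hT]; ring]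
    calc (A1.card : ℝ) * B1.card ≤ (s * t) * ((γ * w + M) * u) :=
          mul_le_mul a1' b3' nB (by positivity)
      _ = (γ * w + M) * (s * t * u) := by ring
      _ ≤ _ := this

end Pool.Agent.Lib.MP_a0e7a4_nt
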