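import Mathlib
import Pool.Agent.Lib.MP_a0e7a4_nt.GCD

set_option autoImplicit false

open Finset

namespace Pool.Agent.Lib.MP_a0e7a4_nt

lemma root4 (R : ℝ) (hR : 0 ≤ R) : 0 ≤ R ^ (1 / 4 : ℝ) ∧ (R ^ (1 / 4 : ℝ)) ^ 4 = R := by
  refine ⟨Real.rpow_nonneg hR _, ?_⟩
  rw [← Real.rpow_natCast, ← Real.rpow_mul hR]; norm_num

lemma sum_ratio (A I : Finset ℕ) (v : ℕ → ℕ) (h : ∀ a ∈ A, v a ∈ I) :
    ∑ i ∈ I, (((A.filter (fun a => v a = i)).card : ℝ) / A.card) ≤ 1 := by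
  rw [← sum_div]
  have : A.card = ∑ i ∈ I, (A.filter (fun a => v a = i)).card :=
    card_eq_sum_card_fiberwise (fun a ha => h a ha)
  have h2 : ∑ i ∈ I, ((A.filter (fun a => v a = i)).card : ℝ) = A.card := by
    rw [this]; push_cast; rfl
  rw [h2]
  exact div_self_le_one _

lemma card_double (Ω : Finset (ℕ × ℕ)) (I J : Finset ℕ) (v : ℕ → ℕ) :
    ((Ω.filter (fun x => v x.1 ∈ I ∧ v x.2 ∈ J)).card : ℝ) =
      ∑ i ∈ I, ∑ j ∈ J, ((Ω.filter (fun x => v x.1 = i ∧ v x.2 = j)).card : ℝ) := by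
  have := card_eq_sum_card_fiberwise (s := Ω.filter (fun x => v x.1 ∈ I ∧ v x.2 ∈ J))
    (t := I ×ˢ J) (f := fun x => (v x.1, v x.2)) (fun x hx => by
      simp only [coe_filter, Set.mem_ofPred_eq] at hx
      simp only [coe_product, Set.mem_prod, mem_coe]
      exact hx.2)
  rw [this, sum_product]
  push_cast
  apply sum_congr rfl; intro i hi
  apply sum_congr rfl; intro j hj
  congr 2
  ext x
  simp only [mem_filter, Prod.mk.injEq]
  constructor
  · rintro ⟨⟨h1, _⟩, h3⟩; exact ⟨h1, h3⟩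
  · rintro ⟨h1, h2, h3⟩; exact ⟨⟨h1, h2 ▸ hi, h3 ▸ hj⟩, h2, h3⟩

lemma step (A B : Finset ℕ) (Ω : Finset (ℕ × ℕ)) (hΩ : Ω ⊆ A ×ˢ B) (v : ℕ → ℕ) (W4 l : ℝ)
    (hW4 : 0 ≤ W4) (hl : 0 ≤ l)
    (h : ∀ i j, ((Ω.filter (fun x => v x.1 = i ∧ v x.2 = j)).card : ℝ) ^ 4 ≤
      W4 * (l ^ dd i j) ^ 4 * (((A.filter (fun a => v a = i)).card : ℝ) *
        ((B.filter (fun a => v a = j)).card : ℝ)) ^ 3) :
    (l ≤ 9 / 10 → (Ω.card : ℝ) ^ 4 ≤ 19 ^ 4 * (W4 * ((A.card : ℝ) * B.card) ^ 3)) ∧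
    (l ≤ 1 / 2304 → W4 * ((A.card : ℝ) * B.card) ^ 3 < (Ω.card : ℝ) ^ 4 →
      ∃ k, ((Ω.filter (fun x => v x.1 ≠ k ∧ v x.2 ≠ k)).card : ℝ) ≤
        3 * 16 ^ 6 * l ^ 6 * Ω.card) := by
  rcases Ω.eq_empty_or_nonempty with hne | hne
  · subst hne
    refine ⟨fun _ => ?_, fun _ _ => ?_⟩
    · rw [card_empty, Nat.cast_zero, zero_pow (by norm_num)]; positivity
    · exact ⟨0, by simp⟩
  obtain ⟨x0, hx0⟩ := hne
  have hA : (0 : ℝ) < A.card := by
    exact_mod_cast card_pos.2 ⟨_, (mem_product.1 (hΩ hx0)).1⟩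
  have hB : (0 : ℝ) < B.card := by
    exact_mod_cast card_pos.2 ⟨_, (mem_product.1 (hΩ hx0)).2⟩
  set I := (A ∪ B).image v with hI
  have hIA : ∀ a ∈ A, v a ∈ I := fun a ha => mem_image_of_mem _ (mem_union_left _ ha)
  have hIB : ∀ a ∈ B, v a ∈ I := fun a ha => mem_image_of_mem _ (mem_union_right _ ha)
  set a : ℕ → ℝ := fun i => (((A.filter (fun a => v a = i)).card : ℝ) / A.card) ^ (1 / 4 : ℝ)
    with ha
  set b : ℕ → ℝ := fun i => (((B.filter (fun a => v a = i)).card : ℝ) / B.card) ^ (1 / 4 : ℝ)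
    with hb
  have ha0 : ∀ i, 0 ≤ a i := fun i => (root4 _ (by positivity)).1
  have hb0 : ∀ i, 0 ≤ b i := fun i => (root4 _ (by positivity)).1
  have ha4 : ∀ i, a i ^ 4 = ((A.filter (fun a => v a = i)).card : ℝ) / A.card :=
    fun i => (root4 _ (by positivity)).2
  have hb4 : ∀ i, b i ^ 4 = ((B.filter (fun a => v a = i)).card : ℝ) / B.card :=
    fun i => (root4 _ (by positivity)).2
  have hsa : ∑ i ∈ I, a i ^ 4 ≤ 1 := by simp only [ha4]; exact sum_ratio A I v hIA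
  have hsb : ∑ i ∈ I, b i ^ 4 ≤ 1 := by simp only [hb4]; exact sum_ratio B I v hIB
  obtain ⟨hW0, hW⟩ := root4 (W4 * ((A.card : ℝ) * B.card) ^ 3) (by positivity)
  set W := (W4 * ((A.card : ℝ) * B.card) ^ 3) ^ (1 / 4 : ℝ) with hWd
  have key : ∀ i j, ((Ω.filter (fun x => v x.1 = i ∧ v x.2 = j)).card : ℝ) ≤
      W * (l ^ dd i j * (a i ^ 3 * b j ^ 3)) := by
    intro i j
    have c0 : 0 ≤ W * (l ^ dd i j * (a i ^ 3 * b j ^ 3)) := by
      have := ha0 i; have := hb0 j; positivity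
    apply (pow_le_pow_iff_left₀ (by positivity) c0 (n := 4) (by norm_num)).1
    refine (h i j).trans (le_of_eq ?_)
    have e : (W * (l ^ dd i j * (a i ^ 3 * b j ^ 3))) ^ 4 =
        W ^ 4 * (l ^ dd i j) ^ 4 * ((a i ^ 4) ^ 3 * (b j ^ 4) ^ 3) := by ring
    rw [e, hW, ha4, hb4]
    field_simp
  have htot : (Ω.card : ℝ) ≤ W * ∑ i ∈ I, ∑ j ∈ I, l ^ dd i j * (a i ^ 3 * b j ^ 3) := by
    have c1 := card_double Ω I I v
    rw [filter_true_of_mem (fun x hx => ⟨hIA _ (mem_product.1 (hΩ hx)).1,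
      hIB _ (mem_product.1 (hΩ hx)).2⟩)] at c1
    rw [c1, mul_sum]
    apply sum_le_sum; intro i _
    rw [mul_sum]
    exact sum_le_sum (fun j _ => key i j)
  refine ⟨fun h1 => ?_, fun h1 h2 => ?_⟩
  · have c1 := conc_small I a b ha0 hb0 hsa hsb l hl h1
    have c2 : (Ω.card : ℝ) ≤ 19 * W := by nlinarith
    have c3 := pow_le_pow_left₀ (by positivity) c2 4
    rw [mul_pow, hW] at c3
    exact c3
  · have c1 : W < Ω.card := by
      rw [← hW] at h2
      exact lt_of_pow_lt_pow_left₀ 4 (by positivity) h2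
    have c2 : 1 ≤ ∑ i ∈ I, ∑ j ∈ I, l ^ dd i j * (a i ^ 3 * b j ^ 3) := by
      by_contra hcon
      push Not at hcon
      nlinarith
    obtain ⟨k, hk⟩ := conc_large I a b ha0 hb0 hsa hsb l hl h1 c2
    refine ⟨k, ?_⟩
    have c3 := card_double Ω (I.erase k) (I.erase k) v
    have c4 : Ω.filter (fun x => v x.1 ≠ k ∧ v x.2 ≠ k) =
        Ω.filter (fun x => v x.1 ∈ I.erase k ∧ v x.2 ∈ I.erase k) := by
      apply filter_congr
      intro x hx
      simp only [mem_erase, hIA _ (mem_product.1 (hΩ hx)).1, hIB _ (mem_product.1 (hΩ hx)).2,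
        and_true]
    rw [c4, c3]
    calc ∑ i ∈ I.erase k, ∑ j ∈ I.erase k, ((Ω.filter (fun x => v x.1 = i ∧ v x.2 = j)).card : ℝ)
        ≤ W * ∑ i ∈ I.erase k, ∑ j ∈ I.erase k, l ^ dd i j * (a i ^ 3 * b j ^ 3) := by
          rw [mul_sum]
          apply sum_le_sum; intro i _
          rw [mul_sum]
          exact sum_le_sum (fun j _ => key i j)
      _ ≤ W * (3 * 16 ^ 6 * l ^ 6) := mul_le_mul_of_nonneg_left hk hW0
      _ ≤ Ω.card * (3 * 16 ^ 6 * l ^ 6) := mul_le_mul_of_nonneg_right c1.le (by positivity)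
      _ = _ := by ring

lemma lam_le (p : ℕ) (hp : 2 ≤ p) : lam p ≤ 9 / 10 := by
  have h1 : lam p ≤ (2 : ℝ) ^ (-(3 / 16) : ℝ) := by
    unfold lam
    apply Real.rpow_le_rpow_of_nonpos (by norm_num) (by exact_mod_cast hp) (by norm_num)
  refine h1.trans ?_
  apply (pow_le_pow_iff_left₀ (by positivity) (by norm_num) (n := 16) (by norm_num)).1
  rw [← Real.rpow_natCast, ← Real.rpow_mul (by norm_num)]
  norm_num

lemma exists_s0 : ∃ s₀ : Finset ℕ, ∀ S : Finset ℕ, Disjoint S s₀ →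
    ∑ p ∈ S, lam p ^ 6 ≤ (1 / 2304) ^ 6 := by
  have hs : Summable (fun p : ℕ => lam p ^ 6) := by
    have : Summable (fun p : ℕ => (p : ℝ) ^ (-(9 / 8) : ℝ)) :=
      Real.summable_nat_rpow.2 (by norm_num)
    convert this using 2 with p
    unfold lam
    rw [← Real.rpow_natCast, ← Real.rpow_mul (by positivity)]
    norm_num
  obtain ⟨s₀, h⟩ := summable_iff_vanishing_norm.1 hs ((1 / 2304) ^ 6) (by positivity)
  refine ⟨s₀, fun S hS => ?_⟩
  have := h S hS
  exact (le_abs_self _).trans this.le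

theorem gcd_main (γ M : ℝ) (hγ : 0 ≤ γ) (hM : 0 ≤ M) (z : ℕ)
    (hS : ∀ (D : Finset ℕ) (s : ℝ), 0 ≤ s → Sep z D → (∀ m ∈ D, 0 < m ∧ (m : ℝ) ≤ s) →
      (D.card : ℝ) ≤ γ * s + M)
    (s₀ : Finset ℕ) (hs₀ : ∀ S : Finset ℕ, Disjoint S s₀ → ∑ p ∈ S, lam p ^ 6 ≤ (1 / 2304) ^ 6)
    (f : ℕ → ℕ → ℕ) (S : Finset ℕ) :
    (∀ p ∈ S, 2 ≤ p) → ∀ (A B : Finset ℕ) (Ω : Finset (ℕ × ℕ)) (X Y : ℝ), 0 ≤ X → 0 ≤ Y →
      Ω ⊆ A ×ˢ B → (∀ x ∈ Ω, (ht S (f x.1) (f x.2) : ℝ) ≤ X) →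
      (∀ x ∈ Ω, (ht S (f x.2) (f x.1) : ℝ) ≤ Y) → Rep f S A → Rep f S B → Sep z A → Sep z B →
      (Ω.card : ℝ) ^ 4 ≤ 216 * (19 ^ 4) ^ (S ∩ s₀).card * Phi γ M (X * Y) *
        ((A.card : ℝ) * B.card) ^ 3 := by
  induction S using Finset.strongInduction with
  | H S ih =>
  intro hS2 A B Ω X Y hX0 hY0 hΩ hX hY hA hB sA sB
  have hPhi : 0 ≤ Phi γ M (X * Y) := Phi_nonneg hγ hM (by positivity)
  have fib : ∀ p ∈ S, ∀ i j,
      ((Ω.filter (fun x => f x.1 p = i ∧ f x.2 p = j)).card : ℝ) ^ 4 ≤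
      (216 * (19 ^ 4) ^ (S.erase p ∩ s₀).card * Phi γ M (X * Y)) * (lam p ^ dd i j) ^ 4 *
        (((A.filter (fun a => f a p = i)).card : ℝ) *
          ((B.filter (fun a => f a p = j)).card : ℝ)) ^ 3 := by
    intro p hp i j
    have hp2 := hS2 p hp
    have hp0 : (0 : ℝ) < p := by exact_mod_cast (by omega : 0 < p)
    have rep : ∀ (C : Finset ℕ) (i : ℕ), Rep f S C → Rep f (S.erase p) (C.filter (fun a => f a p = i)) := by
      rintro C i ⟨c, hc⟩
      refine ⟨c * p ^ i, fun a ha => ?_⟩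
      rw [mem_filter] at ha
      have := hc a ha.1
      rw [← mul_prod_erase S _ hp, ha.2] at this
      rw [mul_assoc]; exact this
    have := ih (S.erase p) (erase_ssubset hp) (fun q hq => hS2 q (mem_of_mem_erase hq))
      (A.filter (fun a => f a p = i)) (B.filter (fun a => f a p = j))
      (Ω.filter (fun x => f x.1 p = i ∧ f x.2 p = j)) (X / (p : ℝ) ^ (i - j)) (Y / (p : ℝ) ^ (j - i))
      (by positivity) (by positivity)
      (fun x hx => by
        rw [mem_filter] at hx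
        have := mem_product.1 (hΩ hx.1)
        exact mem_product.2 ⟨mem_filter.2 ⟨this.1, hx.2.1⟩, mem_filter.2 ⟨this.2, hx.2.2⟩⟩)
      (fun x hx => by
        rw [mem_filter] at hx
        have := hX x hx.1
        unfold ht at this ⊢
        rw [← mul_prod_erase S _ hp, hx.2.1, hx.2.2] at this
        rw [le_div_iff₀ (by positivity), mul_comm]
        exact_mod_cast this)
      (fun x hx => by
        rw [mem_filter] at hx
        have := hY x hx.1
        unfold ht at this ⊢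
        rw [← mul_prod_erase S _ hp, hx.2.1, hx.2.2] at this
        rw [le_div_iff₀ (by positivity), mul_comm]
        exact_mod_cast this)
      (rep A i hA) (rep B j hB) (sA.mono le_rfl (filter_subset _ _))
      (sB.mono le_rfl (filter_subset _ _))
    refine this.trans (mul_le_mul_of_nonneg_right ?_ (by positivity))
    have e : X / (p : ℝ) ^ (i - j) * (Y / (p : ℝ) ^ (j - i)) = X * Y / (p : ℝ) ^ dd i j := by
      unfold dd; rw [pow_add]; field_simp
    rw [e, mul_assoc _ (Phi γ M (X * Y)), mul_comm (Phi γ M (X * Y))]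
    exact mul_le_mul_of_nonneg_left (Phi_scale hγ hM (by positivity) p _ hp2) (by positivity)
  by_cases hsm : (S ∩ s₀).Nonempty
  · obtain ⟨p, hp⟩ := hsm
    have hpS := (mem_inter.1 hp).1
    have h1 := (step A B Ω hΩ (fun a => f a p) _ (lam p) (by positivity) (lam_nonneg p)
      (fib p hpS)).1 (lam_le p (hS2 p hpS))
    have e : (S ∩ s₀).card = (S.erase p ∩ s₀).card + 1 := by
      rw [erase_inter, card_erase_add_one hp]
    rw [e, pow_succ]
    refine h1.trans (le_of_eq ?_)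
    ring
  · rw [not_nonempty_iff_eq_empty] at hsm
    have hdis : Disjoint S s₀ := disjoint_iff_inter_eq_empty.2 hsm
    rw [hsm]
    simp only [card_empty, pow_zero, mul_one]
    by_contra hcon
    push Not at hcon
    have hk : ∀ p, ∃ k, p ∈ S → ((Ω.filter (fun x => f x.1 p ≠ k ∧ f x.2 p ≠ k)).card : ℝ) ≤
        3 * 16 ^ 6 * lam p ^ 6 * Ω.card := by
      intro p
      by_cases hp : p ∈ S
      · have c1 : lam p ≤ 1 / 2304 := by
          have := hs₀ {p} (disjoint_of_subset_left (singleton_subset_iff.2 hp) hdis)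
          rw [sum_singleton] at this
          exact (pow_le_pow_iff_left₀ (lam_nonneg p) (by norm_num) (by norm_num)).1 this
        have e : (S.erase p ∩ s₀).card = 0 := by
          rw [erase_inter, hsm]; simp
        obtain ⟨k, hk⟩ := (step A B Ω hΩ (fun a => f a p) _ (lam p) (by positivity) (lam_nonneg p)
          (fib p hp)).2 c1 (by rw [e]; simpa using hcon)
        exact ⟨k, fun _ => hk⟩
      · exact ⟨0, fun h => absurd h hp⟩
    choose k hk using hk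
    set Ω' := Ω.filter (fun x => ∀ p ∈ S, f x.1 p = k p ∨ f x.2 p = k p) with hΩ'
    have h1 : Ω ⊆ Ω' ∪ S.biUnion (fun p => Ω.filter (fun x => f x.1 p ≠ k p ∧ f x.2 p ≠ k p)) := by
      intro x hx
      rw [mem_union]
      by_cases h : ∀ p ∈ S, f x.1 p = k p ∨ f x.2 p = k p
      · left; exact mem_filter.2 ⟨hx, h⟩
      · right
        push Not at h
        obtain ⟨p, hp, h⟩ := h
        exact mem_biUnion.2 ⟨p, hp, mem_filter.2 ⟨hx, h⟩⟩
    have h2 : (Ω.card : ℝ) ≤ Ω'.card + ∑ p ∈ S,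
        ((Ω.filter (fun x => f x.1 p ≠ k p ∧ f x.2 p ≠ k p)).card : ℝ) := by
      have c1 := (card_le_card h1).trans (card_union_le _ _)
      have c2 := card_biUnion_le (s := S)
        (t := fun p => Ω.filter (fun x => f x.1 p ≠ k p ∧ f x.2 p ≠ k p))
      exact_mod_cast c1.trans (Nat.add_le_add_left c2 _)
    have h3 : ∑ p ∈ S, ((Ω.filter (fun x => f x.1 p ≠ k p ∧ f x.2 p ≠ k p)).card : ℝ) ≤
        1 / 2 * Ω.card := by
      calc _ ≤ ∑ p ∈ S, 3 * 16 ^ 6 * lam p ^ 6 * (Ω.card : ℝ) := sum_le_sum (fun p hp => hk p hp)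
        _ = 3 * 16 ^ 6 * (∑ p ∈ S, lam p ^ 6) * (Ω.card : ℝ) := by
            rw [mul_sum, sum_mul]
        _ ≤ 1 / 2 * Ω.card := by
            apply mul_le_mul_of_nonneg_right _ (by positivity)
            have := hs₀ S hdis
            norm_num at this ⊢
            linarith
    have h4 : (Ω.card : ℝ) ≤ 2 * Ω'.card := by linarith
    have h5 := structured γ M hγ hM z hS f S hS2 A B Ω' X Y hX0 hY0
      ((filter_subset _ _).trans hΩ) (fun x hx => hX x (mem_filter.1 hx).1)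
      (fun x hx => hY x (mem_filter.1 hx).1) hA hB sA sB k (fun x hx => (mem_filter.1 hx).2)
    have h6 : (Ω.card : ℝ) ≤ (A.card : ℝ) * B.card := by
      have := card_le_card hΩ
      rw [card_product] at this
      exact_mod_cast this
    have h7 : (Ω.card : ℝ) ^ 3 ≤ 8 * (Ω'.card : ℝ) ^ 3 := by
      have := pow_le_pow_left₀ (by positivity) h4 3
      calc _ ≤ _ := this
        _ = _ := by ring
    have h8 : (Ω.card : ℝ) ^ 4 ≤ (8 * (27 * (A.card : ℝ) ^ 2 * (B.card : ℝ) ^ 2 * Phi γ M (X * Y))) *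
        ((A.card : ℝ) * B.card) := by
      rw [pow_succ]
      apply mul_le_mul (by linarith) h6 (by positivity) (by positivity)
    have : (8 * (27 * (A.card : ℝ) ^ 2 * (B.card : ℝ) ^ 2 * Phi γ M (X * Y))) *
        ((A.card : ℝ) * B.card) = 216 * Phi γ M (X * Y) * ((A.card : ℝ) * B.card) ^ 3 := by ring
    linarith

end Pool.Agent.Lib.MP_a0e7a4_nt
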