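import Mathlib
import Pool.Agent.Lib.MP_a0e7a4_nt.Induct

set_option autoImplicit false

open Finset

namespace Pool.Agent.Lib.MP_a0e7a4_nt

lemma prod_fact (S : Finset ℕ) (a : ℕ) (ha : a ≠ 0) (h : a.primeFactors ⊆ S) :
    ∏ p ∈ S, p ^ (a.factorization p) = a := by
  conv_rhs => rw [← Nat.prod_factorization_pow_eq_self ha]
  symm
  apply Finsupp.prod_of_support_subset _ (by simpa using h)
  intro i _; simp

lemma ht_eq (S : Finset ℕ) (a b : ℕ) (ha : a ≠ 0) (hb : b ≠ 0) (h : a.primeFactors ⊆ S) :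
    ht S a.factorization b.factorization = a / Nat.gcd a b := by
  have hd : Nat.gcd a b ∣ a := Nat.gcd_dvd_left a b
  have h0 : a / Nat.gcd a b ≠ 0 :=
    (Nat.div_pos (Nat.le_of_dvd (Nat.pos_of_ne_zero ha) hd)
      (Nat.gcd_pos_of_pos_left _ (Nat.pos_of_ne_zero ha))).ne'
  rw [← prod_fact S (a / Nat.gcd a b) h0
    ((Nat.primeFactors_mono (Nat.div_dvd_of_dvd hd) ha).trans h)]
  unfold ht
  apply prod_congr rfl; intro p _
  congr 1
  rw [Nat.factorization_div hd, Nat.factorization_gcd ha hb]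
  simp only [Finsupp.coe_tsub, Pi.sub_apply, Finsupp.inf_apply]
  omega

/-- ordered pairs of distinct elements whose ratio has height at most `H` -/
def pairs (V : Finset ℕ) (H : ℕ) : Finset (ℕ × ℕ) :=
  (V ×ˢ V).filter (fun x => x.1 ≠ x.2 ∧ x.1 / Nat.gcd x.1 x.2 ≤ H ∧ x.2 / Nat.gcd x.1 x.2 ≤ H)

theorem few_pairs (K : ℕ) (hK : 0 < K) (η : ℝ) (hη : 0 < η) : ∃ z : ℕ, 0 < z ∧
    ∀ (n : ℕ) (V : Finset ℕ), V.card ≤ n → (∀ v ∈ V, 0 < v) → Sep z V →
      ((pairs V (K * n)).card : ℝ) ≤ η * (n : ℝ) ^ 2 := by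
  obtain ⟨s₀, hs₀⟩ := exists_s0
  set C : ℝ := 216 * (19 ^ 4) ^ s₀.card with hC
  have hC0 : 0 < C := by positivity
  have hK1 : (1 : ℝ) ≤ K := by exact_mod_cast hK
  set γ : ℝ := η ^ 4 / (2 * C * (K : ℝ) ^ 2) with hγ
  have hγ0 : 0 < γ := by positivity
  obtain ⟨z₀, M, hM, hS⟩ := sieve γ hγ0
  set R : ℝ := 2 * C * M * (K : ℝ) ^ 2 / η ^ 4 with hR
  have hR0 : 0 ≤ R := by positivity
  obtain ⟨n₀, hn₀⟩ := exists_nat_ge (R ^ 2)
  refine ⟨z₀ + K * n₀ + 1, by omega, ?_⟩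
  intro n V hV hpos hsep
  rcases le_total n n₀ with hn | hn
  · have : pairs V (K * n) = ∅ := by
      rw [eq_empty_iff_forall_notMem]
      intro x hx
      unfold pairs at hx
      rw [mem_filter, mem_product] at hx
      obtain ⟨⟨h1, h2⟩, h3, h4, h5⟩ := hx
      have hKn : K * n ≤ K * n₀ := Nat.mul_le_mul_left K hn
      have g0 : 0 < Nat.gcd x.1 x.2 := Nat.gcd_pos_of_pos_left _ (hpos _ h1)
      apply h3
      apply hsep x.1 h1 x.2 h2 (x.2 / Nat.gcd x.1 x.2) (x.1 / Nat.gcd x.1 x.2)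
        (Nat.div_pos (Nat.gcd_le_right _ (hpos _ h2)) g0) (by omega)
        (Nat.div_pos (Nat.gcd_le_left _ (hpos _ h1)) g0) (by omega)
      rw [← Nat.mul_div_assoc _ (Nat.gcd_dvd_right _ _), ← Nat.mul_div_assoc _ (Nat.gcd_dvd_left _ _),
        mul_comm]
    rw [this]; simp only [card_empty, Nat.cast_zero]; positivity
  · set S := V.biUnion Nat.primeFactors with hSd
    have hsub : ∀ v ∈ V, v.primeFactors ⊆ S := fun v hv => subset_biUnion_of_mem _ hv
    have hS2 : ∀ p ∈ S, 2 ≤ p := by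
      intro p hp
      obtain ⟨v, _, hv⟩ := mem_biUnion.1 hp
      exact (Nat.prime_of_mem_primeFactors hv).two_le
    have hrep : Rep (fun a => a.factorization) S V :=
      ⟨1, fun a ha => by rw [one_mul, prod_fact S a (hpos a ha).ne' (hsub a ha)]⟩
    have hsep0 : Sep z₀ V := hsep.mono (by omega) subset_rfl
    have main := gcd_main γ M hγ0.le hM z₀ hS s₀ hs₀ (fun a => a.factorization) S hS2 V V
      (pairs V (K * n)) ((K : ℝ) * n) ((K : ℝ) * n) (by positivity) (by positivity)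
      (filter_subset _ _)
      (fun x hx => by
        unfold pairs at hx
        rw [mem_filter, mem_product] at hx
        obtain ⟨⟨h1, h2⟩, h3, h4, h5⟩ := hx
        rw [ht_eq S _ _ (hpos _ h1).ne' (hpos _ h2).ne' (hsub _ h1)]
        exact_mod_cast h4)
      (fun x hx => by
        unfold pairs at hx
        rw [mem_filter, mem_product] at hx
        obtain ⟨⟨h1, h2⟩, h3, h4, h5⟩ := hx
        rw [ht_eq S _ _ (hpos _ h2).ne' (hpos _ h1).ne' (hsub _ h2), Nat.gcd_comm]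
        exact_mod_cast h5)
      hrep hrep hsep0 hsep0
    have hn0 : (0 : ℝ) ≤ n := by positivity
    have hVn : (V.card : ℝ) ≤ n := by exact_mod_cast hV
    have hRn : R ^ 2 ≤ n := hn₀.trans (by exact_mod_cast hn)
    have c1 : (216 : ℝ) * (19 ^ 4) ^ (S ∩ s₀).card ≤ C := by
      rw [hC]
      apply mul_le_mul_of_nonneg_left _ (by norm_num)
      exact pow_le_pow_right₀ (by norm_num) (card_le_card inter_subset_right)
    have c2 : C * Phi γ M ((K : ℝ) * n * (K * n)) ≤ η ^ 4 * (n : ℝ) ^ 2 := by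
      unfold Phi
      have d1 : C * (γ * ((K : ℝ) * n * (K * n))) = η ^ 4 / 2 * (n : ℝ) ^ 2 := by
        rw [hγ]; field_simp
      have d2 : ((K : ℝ) * n * (K * n)) ^ (3 / 4 : ℝ) * R ≤ (K : ℝ) ^ 2 * (n : ℝ) ^ 2 := by
        apply (pow_le_pow_iff_left₀ (by positivity) (by positivity) (n := 4) (by norm_num)).1
        rw [mul_pow, ← Real.rpow_natCast (((K : ℝ) * n * (K * n)) ^ (3 / 4 : ℝ)),
          ← Real.rpow_mul (by positivity)]
        norm_num
        have e1 : R ^ 4 ≤ (K : ℝ) ^ 2 * (n : ℝ) ^ 2 := by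
          have f1 : (R ^ 2) ^ 2 ≤ (n : ℝ) ^ 2 := pow_le_pow_left₀ (by positivity) hRn 2
          have f2 : (1 : ℝ) ≤ (K : ℝ) ^ 2 := one_le_pow₀ hK1
          nlinarith [sq_nonneg (n : ℝ)]
        calc ((K : ℝ) * n * (K * n)) ^ 3 * R ^ 4 ≤
            ((K : ℝ) * n * (K * n)) ^ 3 * ((K : ℝ) ^ 2 * (n : ℝ) ^ 2) :=
              mul_le_mul_of_nonneg_left e1 (by positivity)
          _ = _ := by ring
      have d3 : C * (M * ((K : ℝ) * n * (K * n)) ^ (3 / 4 : ℝ)) ≤ η ^ 4 / 2 * (n : ℝ) ^ 2 := by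
        have e1 : C * M = R * (η ^ 4 / (2 * (K : ℝ) ^ 2)) := by
          rw [hR]; field_simp
        calc C * (M * ((K : ℝ) * n * (K * n)) ^ (3 / 4 : ℝ)) =
            (((K : ℝ) * n * (K * n)) ^ (3 / 4 : ℝ) * R) * (η ^ 4 / (2 * (K : ℝ) ^ 2)) := by
              rw [← mul_assoc, e1]; ring
          _ ≤ ((K : ℝ) ^ 2 * (n : ℝ) ^ 2) * (η ^ 4 / (2 * (K : ℝ) ^ 2)) :=
              mul_le_mul_of_nonneg_right d2 (by positivity)
          _ = η ^ 4 / 2 * (n : ℝ) ^ 2 := by field_simp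
      rw [mul_add]; linarith
    have hPhi : 0 ≤ Phi γ M ((K : ℝ) * n * (K * n)) := Phi_nonneg hγ0.le hM (by positivity)
    apply (pow_le_pow_iff_left₀ (by positivity) (by positivity) (n := 4) (by norm_num)).1
    refine main.trans ?_
    calc 216 * (19 ^ 4) ^ (S ∩ s₀).card * Phi γ M ((K : ℝ) * n * (K * n)) *
          ((V.card : ℝ) * V.card) ^ 3 ≤ (C * Phi γ M ((K : ℝ) * n * (K * n))) * ((n : ℝ) * n) ^ 3 := by
          gcongr
      _ ≤ (η ^ 4 * (n : ℝ) ^ 2) * ((n : ℝ) * n) ^ 3 :=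
          mul_le_mul_of_nonneg_right c2 (by positivity)
      _ = _ := by ring

end Pool.Agent.Lib.MP_a0e7a4_nt
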