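import Mathlib
import Pool.Agent.Lib.MP_a0e7a4_nt.Arc
import Pool.Agent.Lib.MP_a0e7a4_nt.Few

set_option autoImplicit false

open Finset MeasureTheory

namespace Pool.Agent.Lib.MP_a0e7a4_nt

/-- every time is within `δ` of an integer for some speed -/
def Covers (V : Finset ℕ) (δ : ℝ) : Prop := ∀ t : ℝ, ∃ v ∈ V, ∃ m : ℤ, |(v : ℝ) * t - m| < δ

/-- doubly covered part of the bad set of `v` -/
def DD (V : Finset ℕ) (δ : ℝ) (v : ℕ) : Set UnitAddCircle :=
  E v 0 δ ∩ ⋃ w ∈ V.erase v, E w 0 δ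

def FF (δ : ℝ) (v w : ℕ) : Set UnitAddCircle :=
  if w < v then E v (3 * δ / 2) (δ / 2) ∩ E w (-δ / 2) (δ / 2)
  else E v (3 * δ / 2) (δ / 2) ∩ E w 0 δ

lemma meas_DD (V : Finset ℕ) (δ : ℝ) (v : ℕ) : MeasurableSet (DD V δ v) :=
  (meas_E _ _ _).inter (Finset.measurableSet_biUnion _ (fun _ _ => meas_E _ _ _))

lemma cover_mem {V : Finset ℕ} {δ : ℝ} (hc : Covers V δ) (x : UnitAddCircle) :
    ∃ v ∈ V, x ∈ E v 0 δ := by
  induction x using circ_ind with
  | h t =>
  obtain ⟨v, hv, m, hm⟩ := hc t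
  exact ⟨v, hv, (mem_E _ _ _ _).2 ⟨m, by rw [sub_zero]; exact hm.le⟩⟩

lemma L1 {V : Finset ℕ} {δ : ℝ} (hV : ∀ v ∈ V, 0 < v) (hδ : 0 < δ) (h3 : 3 * δ ≤ 1)
    (hc : Covers V δ) : 1 ≤ 2 * δ * V.card := by
  have h1 : (Set.univ : Set UnitAddCircle) ⊆ ⋃ v ∈ V, E v 0 δ := by
    intro x _
    obtain ⟨v, hv, hx⟩ := cover_mem hc x
    exact Set.mem_biUnion hv hx
  have h2 := (measureReal_mono (μ := (volume : Measure UnitAddCircle)) h1 (measure_ne_top _ _)).trans
    (measureReal_biUnion_finset_le V _)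
  rw [vol_univ, sum_congr rfl (fun v hv => vol_E v (hV v hv) 0 δ hδ.le (by linarith)), sum_const,
    nsmul_eq_mul] at h2
  linarith

lemma L2 {V : Finset ℕ} {δ : ℝ} (hV : ∀ v ∈ V, 0 < v) (hδ : 0 < δ) (h3 : 3 * δ ≤ 1)
    (hc : Covers V δ) :
    ∑ v ∈ V, (volume : Measure UnitAddCircle).real (DD V δ v) ≤ 2 * (2 * δ * V.card) - 2 := by
  classical
  rw [← sum_ind_integral V _ (meas_DD V δ)]
  have i1 := sum_ind_integrable V (fun v => E v 0 δ) (fun v => meas_E _ _ _)
  have h2 : ∫ x, (2 * ∑ v ∈ V, ind (E v 0 δ) x - 2) = 2 * (2 * δ * V.card) - 2 := by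
    rw [integral_sub (i1.const_mul 2) (integrable_const _), integral_const_mul,
      sum_ind_integral V _ (fun v => meas_E _ _ _),
      sum_congr rfl (fun v hv => vol_E v (hV v hv) 0 δ hδ.le (by linarith)), sum_const,
      nsmul_eq_mul, integral_const, vol_univ]
    simp only [smul_eq_mul]; ring
  rw [← h2]
  apply integral_mono (sum_ind_integrable _ _ (meas_DD V δ))
    ((i1.const_mul 2).sub (integrable_const _))
  intro x
  simp only [Pi.sub_apply]
  rw [sum_ind V (fun v => DD V δ v), sum_ind V (fun v => E v 0 δ)]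
  obtain ⟨v, hv, hx⟩ := cover_mem hc x
  have c1 : 1 ≤ (V.filter (fun v => x ∈ E v 0 δ)).card :=
    card_pos.2 ⟨v, mem_filter.2 ⟨hv, hx⟩⟩
  have c2 : (V.filter (fun v => x ∈ DD V δ v)).card ≤ (V.filter (fun v => x ∈ E v 0 δ)).card :=
    card_le_card (fun u hu => mem_filter.2 ⟨(mem_filter.1 hu).1, (mem_filter.1 hu).2.1⟩)
  have c3 : (V.filter (fun v => x ∈ DD V δ v)).card = 0 ∨
      2 ≤ (V.filter (fun v => x ∈ E v 0 δ)).card := by
    rcases (V.filter (fun v => x ∈ DD V δ v)).eq_empty_or_nonempty with h | ⟨u, hu⟩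
    · left; rw [h]; rfl
    · right
      rw [mem_filter] at hu
      obtain ⟨hu1, hu2, hu3⟩ := hu
      simp only [Set.mem_iUnion] at hu3
      obtain ⟨w, hw, hxw⟩ := hu3
      rw [mem_erase] at hw
      exact one_lt_card.2 ⟨u, mem_filter.2 ⟨hu1, hu2⟩, w, mem_filter.2 ⟨hw.2, hxw⟩, hw.1.symm⟩
  have c4 : (V.filter (fun v => x ∈ DD V δ v)).card + 2 ≤
      2 * (V.filter (fun v => x ∈ E v 0 δ)).card := by omega
  have c5 : ((V.filter (fun v => x ∈ DD V δ v)).card : ℝ) + 2 ≤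
      2 * (V.filter (fun v => x ∈ E v 0 δ)).card := by exact_mod_cast c4
  linarith

lemma L3 {V : Finset ℕ} {δ : ℝ} (hV : ∀ v ∈ V, 0 < v) (hδ : 0 < δ) (h3 : 3 * δ ≤ 1)
    (hc : Covers V δ) (v : ℕ) (hv : v ∈ V) :
    δ ≤ (volume : Measure UnitAddCircle).real (DD V δ v) +
      ∑ w ∈ V.erase v, (volume : Measure UnitAddCircle).real (FF δ v w) := by
  have hv0 : (0 : ℝ) < v := by exact_mod_cast hV v hv
  have h1 : E v (3 * δ / 2) (δ / 2) ⊆ sh (-(δ / v)) (DD V δ v) ∪ ⋃ w ∈ V.erase v, FF δ v w := by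
    intro x
    induction x using circ_ind with
    | h t =>
    intro hx
    obtain ⟨m, hm⟩ := (mem_E _ _ _ _).1 hx
    obtain ⟨w, hw, m', hm'⟩ := hc t
    rw [abs_le] at hm
    rw [abs_lt] at hm'
    have hwv : w ≠ v := by
      rintro rfl
      have c1 : (m : ℝ) < m' := by linarith
      have c2 : m + 1 ≤ m' := by exact_mod_cast c1
      have c3 : (m : ℝ) + 1 ≤ m' := by exact_mod_cast c2
      linarith
    have hw' : w ∈ V.erase v := mem_erase.2 ⟨hwv, hw⟩
    by_cases hlt : w < v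
    · by_cases hneg : (w : ℝ) * t - m' ≤ 0
      · right
        refine Set.mem_biUnion hw' ?_
        unfold FF; rw [if_pos hlt]
        refine ⟨hx, (mem_E _ _ _ _).2 ⟨m', ?_⟩⟩
        rw [abs_le]; constructor <;> linarith
      · left
        rw [mem_sh]
        push Not at hneg
        have c1 : (w : ℝ) * (δ / v) ≤ δ := by
          have : (w : ℝ) ≤ v := by exact_mod_cast hlt.le
          calc (w : ℝ) * (δ / v) ≤ v * (δ / v) := mul_le_mul_of_nonneg_right this (by positivity)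
            _ = δ := by field_simp
        have c2 : 0 ≤ (w : ℝ) * (δ / v) := by positivity
        have c3 : (v : ℝ) * (δ / v) = δ := by field_simp
        refine ⟨(mem_E _ _ _ _).2 ⟨m, ?_⟩, Set.mem_biUnion hw' ((mem_E _ _ _ _).2 ⟨m', ?_⟩)⟩
        · rw [abs_le, mul_add, mul_neg]; constructor <;> linarith
        · rw [abs_le, mul_add, mul_neg]; constructor <;> linarith
    · right
      refine Set.mem_biUnion hw' ?_
      unfold FF; rw [if_neg hlt]
      refine ⟨hx, (mem_E _ _ _ _).2 ⟨m', ?_⟩⟩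
      rw [abs_le]; constructor <;> linarith
  have h2 := (measureReal_mono (μ := (volume : Measure UnitAddCircle)) h1 (measure_ne_top _ _)).trans
    (measureReal_union_le _ _)
  rw [vol_E v (hV v hv) _ _ (by linarith) (by linarith), vol_sh] at h2
  have h4 := measureReal_biUnion_finset_le (μ := (volume : Measure UnitAddCircle)) (V.erase v)
    (fun w => FF δ v w)
  linarith

lemma L4 (V : Finset ℕ) {δ : ℝ} (hV : ∀ v ∈ V, 0 < v) (hδ : 0 < δ) (h3 : 3 * δ ≤ 1)
    (H : ℕ) (hH : 0 < H) (v w : ℕ) (hv : v ∈ V) (hw : w ∈ V) (hvw : w ≠ v) :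
    (volume : Measure UnitAddCircle).real (FF δ v w) ≤
      (if w < v then δ ^ 2 else 2 * δ ^ 2) + 2 * δ / H +
        (if (v, w) ∈ pairs V H then 6 * δ ^ 2 else 0) := by
  have hv0 := hV v hv
  have hw0 := hV w hw
  obtain ⟨g, a, b, hg, hab, rfl, rfl⟩ : ∃ g a b : ℕ, 0 < g ∧ Nat.Coprime a b ∧ v = g * a ∧
      w = g * b := by
    have hg : 0 < Nat.gcd v w := Nat.gcd_pos_of_pos_left _ hv0
    refine ⟨Nat.gcd v w, v / Nat.gcd v w, w / Nat.gcd v w, hg, Nat.coprime_div_gcd_div_gcd hg,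
      (Nat.mul_div_cancel' (Nat.gcd_dvd_left _ _)).symm,
      (Nat.mul_div_cancel' (Nat.gcd_dvd_right _ _)).symm⟩
  have ha0 : 0 < a := Nat.pos_of_mul_pos_left hv0
  have hb0 : 0 < b := Nat.pos_of_mul_pos_left hw0
  have ha0' : (0 : ℝ) < a := by exact_mod_cast ha0
  have hb0' : (0 : ℝ) < b := by exact_mod_cast hb0
  have hH' : (0 : ℝ) < H := by exact_mod_cast hH
  have hgcd : Nat.gcd (g * a) (g * b) = g := by rw [Nat.gcd_mul_left, hab, mul_one]
  have hp : (g * a, g * b) ∈ pairs V H ↔ a ≤ H ∧ b ≤ H := by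
    unfold pairs
    rw [mem_filter, mem_product]
    simp only [hgcd, Nat.mul_div_cancel_left _ hg, hv, hw, true_and]
    exact ⟨fun h => h.2, fun h => ⟨hvw.symm, h⟩⟩
  have fin : ∀ (h : ℕ) (P main : ℝ), 0 < h → a ≤ h → b ≤ h → (h = a ∨ h = b) → 0 ≤ main →
      P ≤ main + 2 * δ / h → (P ≤ 0 ∨ 1 ≤ 3 * δ * h) →
      P ≤ main + 2 * δ / H + (if (g * a, g * b) ∈ pairs V H then 6 * δ ^ 2 else 0) := by
    intro h P main h0 h1 h2 h4 hm hP hor
    have h0' : (0 : ℝ) < h := by exact_mod_cast h0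
    have p1 : 0 ≤ 2 * δ / H := by positivity
    by_cases hmem : (g * a, g * b) ∈ pairs V H
    · rw [if_pos hmem]
      rcases hor with hor | hor
      · have : 0 ≤ 6 * δ ^ 2 := by positivity
        linarith
      · have : 2 * δ / h ≤ 6 * δ ^ 2 := by
          rw [div_le_iff₀ h0']; nlinarith
        linarith
    · rw [if_neg hmem]
      rw [hp] at hmem
      have : H ≤ h := by omega
      have : 2 * δ / h ≤ 2 * δ / H :=
        div_le_div_of_nonneg_left (by positivity) hH' (by exact_mod_cast this)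
      linarith
  have emp : ∀ (A : Set UnitAddCircle) (Q : Prop), (∀ t : ℝ, (t : UnitAddCircle) ∈ A → Q) →
      (volume : Measure UnitAddCircle).real A ≤ 0 ∨ Q := by
    intro A Q h
    rcases A.eq_empty_or_nonempty with h0 | ⟨x, hx⟩
    · left; rw [h0]; simp
    · right
      induction x using circ_ind with
      | h t => exact h t hx
  unfold FF
  by_cases hlt : g * b < g * a
  · rw [if_pos hlt, if_pos hlt]
    have hba : b < a := Nat.lt_of_mul_lt_mul_left hlt
    have hba' : (b : ℝ) < a := by exact_mod_cast hba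
    apply fin a _ _ ha0 le_rfl hba.le (Or.inl rfl) (by positivity)
    · rw [Set.inter_comm]
      refine (pair_bound g b a hg ha0 hab.symm _ _ _ _ (by linarith) (by linarith)
        (by linarith)).trans ?_
      have : δ / a ≤ 2 * δ / a := div_le_div_of_nonneg_right (by linarith) ha0'.le
      have e : 2 * (δ / 2) * (2 * (δ / 2) + 1 / a) = δ ^ 2 + δ / a := by ring
      linarith
    · apply emp
      rintro t ⟨h1, h2⟩
      obtain ⟨m, hm⟩ := (mem_E _ _ _ _).1 h1
      obtain ⟨m', hm'⟩ := (mem_E _ _ _ _).1 h2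
      rw [abs_le] at hm hm'
      push_cast at hm hm'
      set x := (g : ℝ) * a * t - m with hx
      set x' := (g : ℝ) * b * t - m' with hx'
      have e : ((a * m' - b * m : ℤ) : ℝ) = b * x - a * x' := by
        rw [hx, hx']; push_cast; ring
      have x1 : δ ≤ x := by linarith
      have x2 : x ≤ 2 * δ := by linarith
      have x3 : -δ ≤ x' := by linarith
      have x4 : x' ≤ 0 := by linarith
      have c1 : (0 : ℝ) < ((a * m' - b * m : ℤ) : ℝ) := by rw [e]; nlinarith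
      have c2 : (1 : ℤ) ≤ a * m' - b * m := by exact_mod_cast c1
      have c3 : (1 : ℝ) ≤ ((a * m' - b * m : ℤ) : ℝ) := by exact_mod_cast c2
      rw [e] at c3
      nlinarith
  · rw [if_neg hlt, if_neg hlt]
    have hab1 : a < b := by
      have : g * a < g * b := by omega
      exact Nat.lt_of_mul_lt_mul_left this
    have hab' : (a : ℝ) < b := by exact_mod_cast hab1
    apply fin b _ _ hb0 hab1.le le_rfl (Or.inr rfl) (by positivity)
    · refine (pair_bound g a b hg hb0 hab _ _ _ _ (by linarith) (by linarith)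
        (by linarith)).trans ?_
      have e : 2 * δ * (2 * (δ / 2) + 1 / b) = 2 * δ ^ 2 + 2 * δ / b := by ring
      linarith
    · apply emp
      rintro t ⟨h1, h2⟩
      obtain ⟨m, hm⟩ := (mem_E _ _ _ _).1 h1
      obtain ⟨m', hm'⟩ := (mem_E _ _ _ _).1 h2
      rw [abs_le] at hm hm'
      push_cast at hm hm'
      set x := (g : ℝ) * a * t - m with hx
      set x' := (g : ℝ) * b * t - m' with hx'
      have e : ((a * m' - b * m : ℤ) : ℝ) = b * x - a * x' := by
        rw [hx, hx']; push_cast; ring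
      have x1 : δ ≤ x := by linarith
      have x2 : x ≤ 2 * δ := by linarith
      have x3 : -δ ≤ x' := by linarith
      have x4 : x' ≤ δ := by linarith
      have c1 : (0 : ℝ) < ((a * m' - b * m : ℤ) : ℝ) := by rw [e]; nlinarith
      have c2 : (1 : ℤ) ≤ a * m' - b * m := by exact_mod_cast c1
      have c3 : (1 : ℝ) ≤ ((a * m' - b * m : ℤ) : ℝ) := by exact_mod_cast c2
      rw [e] at c3
      nlinarith

lemma L5 {V : Finset ℕ} {δ : ℝ} (hV : ∀ v ∈ V, 0 < v) (hδ : 0 < δ) (h3 : 3 * δ ≤ 1)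
    (z v w j j' : ℕ) (hv : v ∈ V) (hw : w ∈ V) (hvw : w ≠ v) (h1 : 0 < j) (h2 : j ≤ z)
    (h4 : 0 < j') (h5 : j' ≤ z) (h : v * j = w * j') :
    2 * (δ / z) ≤ (volume : Measure UnitAddCircle).real (DD V δ v) := by
  have hv0 := hV v hv
  obtain ⟨g, a, b, hg, hab, rfl, rfl⟩ : ∃ g a b : ℕ, 0 < g ∧ Nat.Coprime a b ∧ v = g * a ∧
      w = g * b := by
    have hg : 0 < Nat.gcd v w := Nat.gcd_pos_of_pos_left _ hv0
    refine ⟨Nat.gcd v w, v / Nat.gcd v w, w / Nat.gcd v w, hg, Nat.coprime_div_gcd_div_gcd hg,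
      (Nat.mul_div_cancel' (Nat.gcd_dvd_left _ _)).symm,
      (Nat.mul_div_cancel' (Nat.gcd_dvd_right _ _)).symm⟩
  have e : a * j = b * j' := by
    rw [mul_assoc, mul_assoc] at h
    exact Nat.eq_of_mul_eq_mul_left hg h
  have ha : a ≤ z := (Nat.le_of_dvd h4 (hab.dvd_of_dvd_mul_left ⟨j, e.symm⟩)).trans h5
  have hb : b ≤ z := (Nat.le_of_dvd h1 (hab.symm.dvd_of_dvd_mul_left ⟨j', e⟩)).trans h2
  have hz : (1 : ℝ) ≤ z := by exact_mod_cast (by omega : 1 ≤ z)
  have hz' : δ / z ≤ δ := div_le_self hδ.le hz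
  have key : ∀ (c : ℕ), c ≤ z → E g 0 (δ / z) ⊆ E (g * c) 0 δ := by
    intro c hc x
    induction x using circ_ind with
    | h t =>
    intro hx
    obtain ⟨m, hm⟩ := (mem_E _ _ _ _).1 hx
    refine (mem_E _ _ _ _).2 ⟨c * m, ?_⟩
    have e : ((g * c : ℕ) : ℝ) * t - 0 - ((c * m : ℤ) : ℝ) = c * (g * t - 0 - m) := by
      push_cast; ring
    rw [e, abs_mul, Nat.abs_cast]
    have hc' : (c : ℝ) ≤ z := by exact_mod_cast hc
    calc (c : ℝ) * |g * t - 0 - m| ≤ z * (δ / z) := mul_le_mul hc' hm (abs_nonneg _) (by linarith)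
      _ = δ := by field_simp
  rw [← vol_E g hg 0 (δ / z) (by positivity) (by linarith)]
  apply measureReal_mono _ (measure_ne_top _ _)
  intro x hx
  exact ⟨key a ha hx, Set.mem_biUnion (mem_erase.2 ⟨hvw, hw⟩) (key b hb hx)⟩

end Pool.Agent.Lib.MP_a0e7a4_nt
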