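import Mathlib
import Pool.Agent.Lib.MP_a0e7a4_nt.Cover

set_option autoImplicit false

open Finset MeasureTheory

namespace Pool.Agent.Lib.MP_a0e7a4_nt

lemma main_sum (V : Finset ℕ) (δ : ℝ) :
    ∑ v ∈ V, ∑ w ∈ V.erase v, (if w < v then δ ^ 2 else 2 * δ ^ 2) ≤
      3 / 2 * δ ^ 2 * (V.card : ℝ) ^ 2 := by
  set g : ℕ → ℕ → ℝ := fun v w => if w = v then 0 else (if w < v then δ ^ 2 else 2 * δ ^ 2)
    with hg
  have h1 : ∑ v ∈ V, ∑ w ∈ V.erase v, (if w < v then δ ^ 2 else 2 * δ ^ 2) =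
      ∑ v ∈ V, ∑ w ∈ V, g v w := by
    apply sum_congr rfl; intro v hv
    rw [← add_sum_erase V _ hv]
    simp only [hg, if_true, zero_add]
    apply sum_congr rfl; intro w hw
    rw [if_neg (mem_erase.1 hw).1]
  have h2 : ∑ v ∈ V, ∑ w ∈ V, g v w = ∑ v ∈ V, ∑ w ∈ V, g w v := sum_comm
  have h3 : ∑ v ∈ V, ∑ w ∈ V, g v w + ∑ v ∈ V, ∑ w ∈ V, g w v ≤ ∑ v ∈ V, ∑ w ∈ V, 3 * δ ^ 2 := by
    rw [← sum_add_distrib]
    apply sum_le_sum; intro v _
    rw [← sum_add_distrib]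
    apply sum_le_sum; intro w _
    have := sq_nonneg δ
    rcases lt_trichotomy v w with h | h | h
    · simp only [hg, if_neg h.ne, if_neg h.ne', if_pos h, if_neg (not_lt.2 h.le)]; linarith
    · simp only [hg, h, if_true]; linarith
    · simp only [hg, if_neg h.ne, if_neg h.ne', if_pos h, if_neg (not_lt.2 h.le)]; linarith
  simp only [sum_const, nsmul_eq_mul] at h3
  rw [h1]
  nlinarith

lemma main_ineq {V : Finset ℕ} {δ : ℝ} (hV : ∀ v ∈ V, 0 < v) (hδ : 0 < δ) (h3 : 3 * δ ≤ 1)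
    (hc : Covers V δ) (H : ℕ) (hH : 0 < H) :
    δ * V.card ≤ ∑ v ∈ V, (volume : Measure UnitAddCircle).real (DD V δ v) +
      3 / 2 * δ ^ 2 * (V.card : ℝ) ^ 2 + 2 * δ / H * (V.card : ℝ) ^ 2 +
      6 * δ ^ 2 * (pairs V H).card := by
  have h1 : ∑ v ∈ V, δ ≤ ∑ v ∈ V, ((volume : Measure UnitAddCircle).real (DD V δ v) +
      ∑ w ∈ V.erase v, ((if w < v then δ ^ 2 else 2 * δ ^ 2) + 2 * δ / H +
        (if (v, w) ∈ pairs V H then 6 * δ ^ 2 else 0))) := by
    apply sum_le_sum; intro v hv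
    refine (L3 hV hδ h3 hc v hv).trans (add_le_add le_rfl ?_)
    apply sum_le_sum; intro w hw
    exact L4 V hV hδ h3 H hH v w hv (mem_erase.1 hw).2 (mem_erase.1 hw).1
  simp only [sum_add_distrib] at h1
  rw [sum_const, nsmul_eq_mul] at h1
  have h2 := main_sum V δ
  have h4 : ∑ v ∈ V, ∑ w ∈ V.erase v, 2 * δ / H ≤ 2 * δ / H * (V.card : ℝ) ^ 2 := by
    calc ∑ v ∈ V, ∑ w ∈ V.erase v, 2 * δ / H ≤ ∑ v ∈ V, ∑ w ∈ V, 2 * δ / H := by
          apply sum_le_sum; intro v _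
          exact sum_le_sum_of_subset_of_nonneg (erase_subset _ _) (fun _ _ _ => by positivity)
      _ = _ := by simp only [sum_const, nsmul_eq_mul]; ring
  have h5 : ∑ v ∈ V, ∑ w ∈ V.erase v, (if (v, w) ∈ pairs V H then 6 * δ ^ 2 else 0) ≤
      6 * δ ^ 2 * (pairs V H).card := by
    calc ∑ v ∈ V, ∑ w ∈ V.erase v, (if (v, w) ∈ pairs V H then 6 * δ ^ 2 else 0) ≤
        ∑ v ∈ V, ∑ w ∈ V, (if (v, w) ∈ pairs V H then 6 * δ ^ 2 else 0) := by
          apply sum_le_sum; intro v _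
          exact sum_le_sum_of_subset_of_nonneg (erase_subset _ _)
            (fun _ _ _ => by split_ifs <;> positivity)
      _ = ∑ x ∈ V ×ˢ V, (if x ∈ pairs V H then 6 * δ ^ 2 else 0) := by rw [sum_product]
      _ = _ := by
          have hs : pairs V H ⊆ V ×ˢ V := filter_subset _ _
          rw [← sum_filter, filter_mem_eq_inter, inter_eq_right.2 hs, sum_const,
            nsmul_eq_mul, mul_comm]
  linarith

theorem no_cover : ∃ ε : ℝ, 0 < ε ∧ ∀ (n : ℕ), 2 ≤ n → ∀ V : Finset ℕ, V.card ≤ n →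
    (∀ v ∈ V, 0 < v) → ¬ Covers V ((1 + ε) / (2 * n)) := by
  classical
  obtain ⟨z, hz, hfew⟩ := few_pairs 50 (by norm_num) (1 / 200) (by norm_num)
  have hz1 : (1 : ℝ) ≤ z := by exact_mod_cast hz
  set ε : ℝ := 1 / (800 * z) with hε
  have hε0 : 0 < ε := by positivity
  have hεz : ε * z = 1 / 800 := by rw [hε]; field_simp
  have hε1 : ε ≤ 1 / 800 := by nlinarith
  refine ⟨ε, hε0, ?_⟩
  intro n hn V hVn hV hc
  have hn2 : (2 : ℝ) ≤ n := by exact_mod_cast hn
  set δ : ℝ := (1 + ε) / (2 * n) with hδd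
  have hδ : 0 < δ := by positivity
  have hδn : 2 * δ * n = 1 + ε := by rw [hδd]; field_simp
  have h3 : 3 * δ ≤ 1 := by nlinarith
  have hN : (V.card : ℝ) ≤ n := by exact_mod_cast hVn
  have hN0 : (0 : ℝ) ≤ V.card := by positivity
  have l1 := L1 hV hδ h3 hc
  have l1' : 2 * δ * V.card ≤ 1 + ε := by nlinarith
  have l2 : ∑ v ∈ V, (volume : Measure UnitAddCircle).real (DD V δ v) ≤ 2 * ε := by
    have := L2 hV hδ h3 hc
    linarith
  set Bad := V.filter (fun v => ∃ w ∈ V, w ≠ v ∧ ∃ j j' : ℕ, 0 < j ∧ j ≤ z ∧ 0 < j' ∧ j' ≤ z ∧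
    v * j = w * j') with hBad
  have hb1 : (Bad.card : ℝ) * (2 * (δ / z)) ≤ 2 * ε := by
    calc (Bad.card : ℝ) * (2 * (δ / z)) = ∑ v ∈ Bad, 2 * (δ / z) := by
          rw [sum_const, nsmul_eq_mul]
      _ ≤ ∑ v ∈ Bad, (volume : Measure UnitAddCircle).real (DD V δ v) := by
          apply sum_le_sum; intro v hv
          obtain ⟨hv1, w, hw, hwv, j, j', c1, c2, c3, c4, c5⟩ := mem_filter.1 hv
          exact L5 hV hδ h3 z v w j j' hv1 hw hwv c1 c2 c3 c4 c5
      _ ≤ ∑ v ∈ V, (volume : Measure UnitAddCircle).real (DD V δ v) :=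
          sum_le_sum_of_subset_of_nonneg (filter_subset _ _) (fun _ _ _ => measureReal_nonneg)
      _ ≤ _ := l2
  have hb2 : (Bad.card : ℝ) ≤ n / 400 := by
    have c1 : (Bad.card : ℝ) * (2 * δ) ≤ 2 * ε * z := by
      have := mul_le_mul_of_nonneg_right hb1 (by linarith : (0 : ℝ) ≤ z)
      have e : (Bad.card : ℝ) * (2 * (δ / z)) * z = Bad.card * (2 * δ) := by field_simp
      linarith
    have c2 : (Bad.card : ℝ) * (2 * δ) * n ≤ 2 * ε * z * n :=
      mul_le_mul_of_nonneg_right c1 (by linarith)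
    have c3 : (Bad.card : ℝ) * (2 * δ) * n = Bad.card * (1 + ε) := by rw [← hδn]; ring
    have c4 : (0 : ℝ) ≤ Bad.card := by positivity
    have c5 : 2 * ε * z * n = n / 400 := by rw [mul_assoc 2, hεz]; ring
    nlinarith
  set V' := V \ Bad with hV'
  have hsep : Sep z V' := by
    intro a ha a' ha' j j' c1 c2 c3 c4 c5
    rw [hV', mem_sdiff] at ha ha'
    by_contra hne
    exact ha.2 (mem_filter.2 ⟨ha.1, a', ha'.1, fun h => hne h.symm, j, j', c1, c2, c3, c4, c5⟩)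
  have hp1 := hfew n V' ((card_le_card sdiff_subset).trans hVn)
    (fun v hv => hV v (mem_sdiff.1 hv).1) hsep
  have hp2 : pairs V (50 * n) ⊆ pairs V' (50 * n) ∪ (Bad ×ˢ V ∪ V ×ˢ Bad) := by
    intro x hx
    unfold pairs at hx ⊢
    rw [mem_filter, mem_product] at hx
    simp only [mem_union, mem_filter, mem_product, hV', mem_sdiff]
    by_cases c1 : x.1 ∈ Bad
    · right; left; exact ⟨c1, hx.1.2⟩
    · by_cases c2 : x.2 ∈ Bad
      · right; right; exact ⟨hx.1.1, c2⟩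
      · left; exact ⟨⟨⟨hx.1.1, c1⟩, hx.1.2, c2⟩, hx.2⟩
  have hp3 : ((pairs V (50 * n)).card : ℝ) ≤ (n : ℝ) ^ 2 / 100 := by
    have c1 := (card_le_card hp2).trans (card_union_le _ _)
    have c2 := card_union_le (Bad ×ˢ V) (V ×ˢ Bad)
    rw [card_product, card_product] at c2
    have c3 : ((pairs V (50 * n)).card : ℝ) ≤ (pairs V' (50 * n)).card +
        ((Bad.card : ℝ) * V.card + V.card * Bad.card) := by
      exact_mod_cast c1.trans (Nat.add_le_add_left c2 _)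
    have c4 : (Bad.card : ℝ) * V.card ≤ n / 400 * n :=
      mul_le_mul hb2 hN hN0 (by positivity)
    nlinarith
  have hm := main_ineq hV hδ h3 hc (50 * n) (by omega)
  have t1 : 3 / 2 * δ ^ 2 * (V.card : ℝ) ^ 2 ≤ 3 / 8 * (1 + ε) ^ 2 := by
    have := pow_le_pow_left₀ (by positivity) l1' 2
    nlinarith
  have t2 : 2 * δ / ((50 * n : ℕ) : ℝ) * (V.card : ℝ) ^ 2 ≤ (1 + ε) / 50 := by
    have e : 2 * δ / ((50 * n : ℕ) : ℝ) * (V.card : ℝ) ^ 2 =
        (2 * δ * V.card) * (V.card / n) / 50 := by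
      push_cast; field_simp
    rw [e]
    have : (V.card : ℝ) / n ≤ 1 := (div_le_one (by linarith)).2 hN
    have : (2 * δ * V.card) * (V.card / n) ≤ (1 + ε) * 1 :=
      mul_le_mul l1' this (by positivity) (by linarith)
    linarith
  have t3 : 6 * δ ^ 2 * ((pairs V (50 * n)).card : ℝ) ≤ 3 / 200 * (1 + ε) ^ 2 := by
    calc 6 * δ ^ 2 * ((pairs V (50 * n)).card : ℝ) ≤ 6 * δ ^ 2 * ((n : ℝ) ^ 2 / 100) :=
          mul_le_mul_of_nonneg_left hp3 (by positivity)
      _ = 3 / 200 * (2 * δ * n) ^ 2 := by ring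
      _ = _ := by rw [hδn]
  have t4 : (1 + ε) ^ 2 ≤ 101 / 100 := by nlinarith
  linarith

lemma dirichlet (n : ℕ) (v : Fin n → ℝ) (η : ℝ) (hη : 0 < η) :
    ∃ k : ℕ, 0 < k ∧ ∀ i, |(k : ℝ) * v i - round ((k : ℝ) * v i)| < η := by
  have h := mapClusterPt_zero_atTop_nsmul (fun i => (v i : UnitAddCircle))
  rw [mapClusterPt_iff_frequently] at h
  have h2 := (h _ (Metric.ball_mem_nhds 0 hη)).and_eventually (Filter.eventually_gt_atTop 0)
  obtain ⟨k, hk1, hk2⟩ := h2.exists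
  refine ⟨k, hk2, fun i => ?_⟩
  rw [mem_ball_zero_iff] at hk1
  have c1 := (norm_le_pi_norm _ i).trans_lt hk1
  rw [← UnitAddCircle.norm_eq]
  have e : (((k : ℝ) * v i : ℝ) : UnitAddCircle) = k • (v i : UnitAddCircle) := by
    rw [← AddCircle.coe_nsmul]; simp
  rw [e]; exact c1

theorem weak_lonely : ∃ c : ℝ, 1 / 2 < c ∧
    ∀ n : ℕ, 2 ≤ n → ∀ v : Fin n → ℝ, (∀ i, v i ≠ 0) →
      ∃ t : ℝ, ∀ i, c / (n : ℝ) ≤ |v i * t - (round (v i * t) : ℝ)| := by
  obtain ⟨ε, hε, h⟩ := no_cover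
  refine ⟨(1 + ε / 2) / 2, by linarith, ?_⟩
  intro n hn v hv
  by_contra hcon
  push Not at hcon
  have hn0 : (0 : ℝ) < n := by exact_mod_cast (by omega : 0 < n)
  obtain ⟨η, hη, hη1, hη2⟩ : ∃ η : ℝ, 0 < η ∧ η ≤ ε / (4 * n) ∧ ∀ i, η ≤ |v i| := by
    have : Nonempty (Fin n) := ⟨⟨0, by omega⟩⟩
    obtain ⟨i0, hi0⟩ := Finite.exists_min (fun i => |v i|)
    refine ⟨min (ε / (4 * n)) |v i0|, lt_min (by positivity) (abs_pos.2 (hv i0)),
      min_le_left _ _, fun i => (min_le_right _ _).trans (hi0 i)⟩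
  obtain ⟨k, hk, hk2⟩ := dirichlet n v η hη
  have hk1 : (1 : ℝ) ≤ k := by exact_mod_cast hk
  set p : Fin n → ℤ := fun i => round ((k : ℝ) * v i) with hp
  have hp0 : ∀ i, p i ≠ 0 := by
    intro i h0
    have c1 := hk2 i
    have : round ((k : ℝ) * v i) = 0 := h0
    rw [this, Int.cast_zero, sub_zero, abs_mul, Nat.abs_cast] at c1
    have := hη2 i
    nlinarith
  apply h n hn (univ.image (fun i => (p i).natAbs))
  · exact card_image_le.trans (by simp)
  · intro w hw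
    obtain ⟨i, _, rfl⟩ := mem_image.1 hw
    exact Int.natAbs_pos.2 (hp0 i)
  · intro t
    obtain ⟨i, hi⟩ := hcon (k * Int.fract t)
    refine ⟨(p i).natAbs, mem_image_of_mem _ (mem_univ i), ?_⟩
    have c1 : |(p i : ℝ) * t - ((round (v i * (k * Int.fract t)) + p i * ⌊t⌋ : ℤ) : ℝ)| <
        (1 + ε) / (2 * n) := by
      have e : (p i : ℝ) * t - ((round (v i * (k * Int.fract t)) + p i * ⌊t⌋ : ℤ) : ℝ) =
          (v i * (k * Int.fract t) - round (v i * (k * Int.fract t))) -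
            ((k : ℝ) * v i - p i) * Int.fract t := by
        push_cast
        have := Int.fract_add_floor t
        have e2 : (p i : ℝ) * t = p i * (Int.fract t + ⌊t⌋) := by rw [this]
        rw [e2]; ring
      rw [e]
      have d1 : |((k : ℝ) * v i - p i) * Int.fract t| ≤ ε / (4 * n) := by
        rw [abs_mul, abs_of_nonneg (Int.fract_nonneg t)]
        have f1 := (hk2 i).le.trans hη1
        have f2 := (Int.fract_lt_one t).le
        have f3 := Int.fract_nonneg t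
        calc |(k : ℝ) * v i - p i| * Int.fract t ≤ ε / (4 * n) * 1 :=
              mul_le_mul f1 f2 f3 (by positivity)
          _ = _ := mul_one _
      have d2 : (1 + ε / 2) / 2 / n + ε / (4 * n) = (1 + ε) / (2 * n) := by field_simp; ring
      have d3 := abs_sub (v i * (k * Int.fract t) - round (v i * (k * Int.fract t)))
        (((k : ℝ) * v i - p i) * Int.fract t)
      linarith
    rcases Int.natAbs_eq (p i) with h1 | h1
    · refine ⟨round (v i * (k * Int.fract t)) + p i * ⌊t⌋, ?_⟩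
      have : (((p i).natAbs : ℕ) : ℝ) = p i := by
        conv_rhs => rw [h1]
        simp
      rw [this]; exact c1
    · refine ⟨-(round (v i * (k * Int.fract t)) + p i * ⌊t⌋), ?_⟩
      have : (((p i).natAbs : ℕ) : ℝ) = -(p i : ℝ) := by
        conv_rhs => rw [h1]
        simp
      rw [this, ← abs_neg]
      convert c1 using 2
      push_cast; ring

end Pool.Agent.Lib.MP_a0e7a4_nt
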