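import Pool.Agent.Lib.MP_a0e7a4_nt.Meas

/-!
Lonely times have positive lower Banach density, uniformly in the number of runners and the speeds.
-/

set_option autoImplicit false

open Finset MeasureTheory

namespace Pool.Agent.Lib.MP_a0e7a4_nt

theorem lon_large : ∃ ε : ℝ, 0 < ε ∧ ∀ (n : ℕ), 2 ≤ n → ∀ V : Finset ℕ, V.card ≤ n →
    (∀ v ∈ V, 0 < v) →
      ε ≤ (volume : Measure UnitAddCircle).real (Lon V ((1 + ε) / (2 * n))) := by
  classical
  obtain ⟨z, hz, hfew⟩ := few_pairs 50 (by norm_num) (1 / 200) (by norm_num)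
  have hz1 : (1 : ℝ) ≤ z := by exact_mod_cast hz
  set ε : ℝ := 1 / (1600 * z) with hε
  have hε0 : 0 < ε := by positivity
  have hεz : ε * z = 1 / 1600 := by rw [hε]; field_simp
  have hε1 : ε ≤ 1 / 1600 := by nlinarith
  refine ⟨ε, hε0, ?_⟩
  intro n hn V hVn hV
  by_contra hc
  push Not at hc
  have hn2 : (2 : ℝ) ≤ n := by exact_mod_cast hn
  set δ : ℝ := (1 + ε) / (2 * n) with hδd
  have hδ : 0 < δ := by positivity
  have hδn : 2 * δ * n = 1 + ε := by rw [hδd]; field_simp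
  have h3 : 3 * δ ≤ 1 := by nlinarith
  have hN : (V.card : ℝ) ≤ n := by exact_mod_cast hVn
  have hN0 : (0 : ℝ) ≤ V.card := by positivity
  have l1 := M1 hV hδ h3
  have l1' : 2 * δ * V.card ≤ 1 + ε := by nlinarith
  have l2 : ∑ v ∈ V, (volume : Measure UnitAddCircle).real (DD V δ v) ≤ 4 * ε := by
    have := M2 hV hδ h3
    linarith
  set Bad := V.filter (fun v => ∃ w ∈ V, w ≠ v ∧ ∃ j j' : ℕ, 0 < j ∧ j ≤ z ∧ 0 < j' ∧ j' ≤ z ∧
    v * j = w * j') with hBad
  have hb1 : (Bad.card : ℝ) * (2 * (δ / z)) ≤ 4 * ε := by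
    calc (Bad.card : ℝ) * (2 * (δ / z)) = ∑ v ∈ Bad, 2 * (δ / z) := by
          rw [sum_const, nsmul_eq_mul]
      _ ≤ ∑ v ∈ Bad, (volume : Measure UnitAddCircle).real (DD V δ v) := by
          apply sum_le_sum; intro v hv
          obtain ⟨hv1, w, hw, hwv, j, j', c1, c2, c3, c4, c5⟩ := mem_filter.1 hv
          exact L5 hV hδ h3 z v w j j' hv1 hw hwv c1 c2 c3 c4 c5
      _ ≤ ∑ v ∈ V, (volume : Measure UnitAddCircle).real (DD V δ v) :=
          sum_le_sum_of_subset_of_nonneg (filter_subset _ _) (fun _ _ _ => measureReal_nonneg)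
      _ ≤ _ := l2
  have hb2 : (Bad.card : ℝ) ≤ n / 400 := by
    have c1 : (Bad.card : ℝ) * (2 * δ) ≤ 4 * ε * z := by
      have := mul_le_mul_of_nonneg_right hb1 (by linarith : (0 : ℝ) ≤ z)
      have e : (Bad.card : ℝ) * (2 * (δ / z)) * z = Bad.card * (2 * δ) := by field_simp
      linarith
    have c2 : (Bad.card : ℝ) * (2 * δ) * n ≤ 4 * ε * z * n :=
      mul_le_mul_of_nonneg_right c1 (by linarith)
    have c3 : (Bad.card : ℝ) * (2 * δ) * n = Bad.card * (1 + ε) := by rw [← hδn]; ring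
    have c4 : (0 : ℝ) ≤ Bad.card := by positivity
    have c5 : 4 * ε * z * n = n / 400 := by rw [mul_assoc 4, hεz]; ring
    nlinarith
  set V' := V \ Bad with hV'
  have hsep : Sep z V' := by
    intro a ha a' ha' j j' c1 c2 c3 c4 c5
    rw [hV', mem_sdiff] at ha ha'
    by_contra hne
    exact ha.2 (mem_filter.2 ⟨ha.1, a', ha'.1, fun h => hne h.symm, j, j', c1, c2, c3, c4, c5⟩)
  have hp1 := hfew n V' ((card_le_card sdiff_subset).trans hVn)
    (fun v hv => hV v (mem_sdiff.1 hv).1) hsep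
  have hp2 : pairs V (50 * n) ⊆ pairs V' (50 * n) ∪ (Bad ×ˢ V ∪ V ×ˢ Bad) := by
    intro x hx
    unfold pairs at hx ⊢
    rw [mem_filter, mem_product] at hx
    simp only [mem_union, mem_filter, mem_product, hV', mem_sdiff]
    by_cases c1 : x.1 ∈ Bad
    · right; left; exact ⟨c1, hx.1.2⟩
    · by_cases c2 : x.2 ∈ Bad
      · right; right; exact ⟨hx.1.1, c2⟩
      · left; exact ⟨⟨⟨hx.1.1, c1⟩, hx.1.2, c2⟩, hx.2⟩
  have hp3 : ((pairs V (50 * n)).card : ℝ) ≤ (n : ℝ) ^ 2 / 100 := by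
    have c1 := (card_le_card hp2).trans (card_union_le _ _)
    have c2 := card_union_le (Bad ×ˢ V) (V ×ˢ Bad)
    rw [card_product, card_product] at c2
    have c3 : ((pairs V (50 * n)).card : ℝ) ≤ (pairs V' (50 * n)).card +
        ((Bad.card : ℝ) * V.card + V.card * Bad.card) := by
      exact_mod_cast c1.trans (Nat.add_le_add_left c2 _)
    have c4 : (Bad.card : ℝ) * V.card ≤ n / 400 * n :=
      mul_le_mul hb2 hN hN0 (by positivity)
    nlinarith
  have hm := M7 hV hδ h3 (50 * n) (by omega)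
  have t1 : 3 / 2 * δ ^ 2 * (V.card : ℝ) ^ 2 ≤ 3 / 8 * (1 + ε) ^ 2 := by
    have := pow_le_pow_left₀ (by positivity) l1' 2
    nlinarith
  have t2 : 2 * δ / ((50 * n : ℕ) : ℝ) * (V.card : ℝ) ^ 2 ≤ (1 + ε) / 50 := by
    have e : 2 * δ / ((50 * n : ℕ) : ℝ) * (V.card : ℝ) ^ 2 =
        (2 * δ * V.card) * (V.card / n) / 50 := by
      push_cast; field_simp
    rw [e]
    have : (V.card : ℝ) / n ≤ 1 := (div_le_one (by linarith)).2 hN
    have : (2 * δ * V.card) * (V.card / n) ≤ (1 + ε) * 1 :=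
      mul_le_mul l1' this (by positivity) (by linarith)
    linarith
  have t3 : 6 * δ ^ 2 * ((pairs V (50 * n)).card : ℝ) ≤ 3 / 200 * (1 + ε) ^ 2 := by
    calc 6 * δ ^ 2 * ((pairs V (50 * n)).card : ℝ) ≤ 6 * δ ^ 2 * ((n : ℝ) ^ 2 / 100) :=
          mul_le_mul_of_nonneg_left hp3 (by positivity)
      _ = 3 / 200 * (2 * δ * n) ^ 2 := by ring
      _ = _ := by rw [hδn]
  have t4 : (1 + ε) ^ 2 ≤ 101 / 100 := by nlinarith
  linarith

/-- Almost periods are relatively dense. -/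
lemma syndetic (n : ℕ) (v : Fin n → ℝ) (η : ℝ) (hη : 0 < η) :
    ∃ L : ℝ, 0 < L ∧ ∀ x : ℝ, ∃ k : ℤ, x ≤ k ∧ k ≤ x + L ∧
      ∀ i, |(k : ℝ) * v i - round ((k : ℝ) * v i)| < η := by
  set y : Fin n → UnitAddCircle := fun i => (v i : UnitAddCircle) with hy
  have htb : TotallyBounded (Set.range fun k : ℤ => k • y) :=
    isCompact_univ.totallyBounded.subset (Set.subset_univ _)
  obtain ⟨t, ht, hf, hcov⟩ := Metric.finite_approx_of_totallyBounded htb η hη
  have ht' : ∀ w ∈ t, ∃ k : ℤ, k • y = w := fun w hw => ht hw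
  choose! j hj using ht'
  obtain ⟨B, hB⟩ := (hf.image fun x => |j x|).bddAbove
  refine ⟨2 * |(B : ℝ)| + 1, by positivity, fun x => ?_⟩
  obtain ⟨w, hw, h1⟩ := Set.mem_iUnion₂.1 (hcov (a := (⌈x⌉ + B) • y) ⟨⌈x⌉ + B, rfl⟩)
  have h2 : |j w| ≤ B := hB ⟨w, hw, rfl⟩
  have h3 : |(j w : ℝ)| ≤ B := by exact_mod_cast h2
  rw [abs_le] at h3
  have h4 := Int.le_ceil x
  have h5 := Int.ceil_lt_add_one x
  have h6 := le_abs_self (B : ℝ)
  refine ⟨⌈x⌉ + B - j w, by push_cast; linarith, by push_cast; linarith, fun i => ?_⟩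
  rw [← hj w hw, Metric.mem_ball, dist_eq_norm, ← sub_smul] at h1
  have c1 := (norm_le_pi_norm _ i).trans_lt h1
  rw [← UnitAddCircle.norm_eq]
  have e : ((((⌈x⌉ + B - j w : ℤ) : ℝ) * v i : ℝ) : UnitAddCircle) =
      (⌈x⌉ + B - j w) • (v i : UnitAddCircle) := by
    rw [← AddCircle.coe_zsmul]; simp
  rw [e]; exact c1

theorem dense_lonely : ∃ c : ℝ, 1 / 2 < c ∧ ∃ η : ℝ, 0 < η ∧
    ∀ n : ℕ, 2 ≤ n → ∀ v : Fin n → ℝ, (∀ i, v i ≠ 0) → ∃ T₀ : ℝ, ∀ T : ℝ, T₀ ≤ T → ∀ a : ℝ,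
      ENNReal.ofReal (η * T) ≤
        volume {t : ℝ | t ∈ Set.Icc a (a + T) ∧
          ∀ (i : Fin n) (m : ℤ), c / (n : ℝ) ≤ |v i * t - (m : ℝ)|} := by
  obtain ⟨ε, hε, h⟩ := lon_large
  refine ⟨(1 + ε / 2) / 2, by linarith, ε / 2, by linarith, ?_⟩
  intro n hn v hv
  have hn0 : (0 : ℝ) < n := by exact_mod_cast (by omega : 0 < n)
  obtain ⟨η, hη, hη1, hη2⟩ : ∃ η : ℝ, 0 < η ∧ η ≤ ε / (8 * n) ∧ ∀ i, η ≤ |v i| := by
    have : Nonempty (Fin n) := ⟨⟨0, by omega⟩⟩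
    obtain ⟨i0, hi0⟩ := Finite.exists_min (fun i => |v i|)
    refine ⟨min (ε / (8 * n)) |v i0|, lt_min (by positivity) (abs_pos.2 (hv i0)),
      min_le_left _ _, fun i => (min_le_right _ _).trans (hi0 i)⟩
  obtain ⟨L, hL, hs⟩ := syndetic n v η hη
  refine ⟨4 * L + 2, fun T hT a => ?_⟩
  obtain ⟨k₁, a1, a2, a3⟩ := hs a
  obtain ⟨k, b1, b2, b3⟩ := hs (T - 2 * L)
  have hk1 : (1 : ℝ) ≤ k := by linarith
  set p : Fin n → ℤ := fun i => round ((k : ℝ) * v i) with hp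
  have hp0 : ∀ i, p i ≠ 0 := by
    intro i h0
    have c1 := b3 i
    have : round ((k : ℝ) * v i) = 0 := h0
    rw [this, Int.cast_zero, sub_zero, abs_mul, abs_of_pos (by linarith : (0 : ℝ) < k)] at c1
    have := hη2 i
    nlinarith
  set V := univ.image (fun i => (p i).natAbs) with hV
  have h1 := h n hn V (card_image_le.trans (by simp)) (by
    intro w hw
    obtain ⟨i, _, rfl⟩ := mem_image.1 hw
    exact Int.natAbs_pos.2 (hp0 i))
  set U := Lon V ((1 + ε) / (2 * n)) with hU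
  set A := {t : ℝ | t ∈ Set.Icc a (a + T) ∧
    ∀ (i : Fin n) (m : ℤ), (1 + ε / 2) / 2 / (n : ℝ) ≤ |v i * t - (m : ℝ)|} with hA
  have h2 : (volume : Measure UnitAddCircle) U =
      volume (((↑) : ℝ → UnitAddCircle) ⁻¹' U ∩ Set.Ioc 0 (0 + 1)) := by
    rw [← (UnitAddCircle.measurePreserving_mk 0).measure_preimage
      (meas_Lon _ _).nullMeasurableSet, Measure.restrict_apply' measurableSet_Ioc]
  have h3 : ((↑) : ℝ → UnitAddCircle) ⁻¹' U ∩ Set.Ioc 0 (0 + 1) ⊆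
      (fun s => (k : ℝ) * s) ⁻¹' ((fun s => (k₁ : ℝ) + s) ⁻¹' A) := by
    rintro s ⟨s1, s2, s3⟩
    rw [zero_add] at s3
    have s4 : (k : ℝ) * s ≤ k := mul_le_of_le_one_right (by linarith) s3
    have s5 : 0 ≤ (k : ℝ) * s := by positivity
    refine ⟨⟨by linarith, by linarith⟩, fun i m => ?_⟩
    have c0 := mem_Lon.1 s1 (p i).natAbs (mem_image_of_mem _ (mem_univ i))
    have c1 : (1 + ε) / (2 * n) ≤ |(p i : ℝ) * s - ((m - round ((k₁ : ℝ) * v i) : ℤ) : ℝ)| := by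
      rcases Int.natAbs_eq (p i) with h1 | h1
      · have : (((p i).natAbs : ℕ) : ℝ) = p i := by
          conv_rhs => rw [h1]
          simp
        rw [← this]; exact c0 _
      · have : (((p i).natAbs : ℕ) : ℝ) = -(p i : ℝ) := by
          conv_rhs => rw [h1]
          simp
        have c2 := c0 (-(m - round ((k₁ : ℝ) * v i)))
        rw [this, ← abs_neg] at c2
        convert c2 using 2
        push_cast; ring
    have e : (p i : ℝ) * s - ((m - round ((k₁ : ℝ) * v i) : ℤ) : ℝ) =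
        (v i * (k₁ + k * s) - m) - (((k₁ : ℝ) * v i - round ((k₁ : ℝ) * v i)) +
          ((k : ℝ) * v i - p i) * s) := by
      push_cast; ring
    have d1 : |((k : ℝ) * v i - p i) * s| ≤ ε / (8 * n) := by
      rw [abs_mul, abs_of_pos s2]
      exact (mul_le_of_le_one_right (abs_nonneg _) s3).trans ((b3 i).le.trans hη1)
    have d2 := (a3 i).le.trans hη1
    have d3 := abs_add_le ((k₁ : ℝ) * v i - round ((k₁ : ℝ) * v i)) (((k : ℝ) * v i - p i) * s)
    have d4 := abs_sub (v i * (k₁ + k * s) - m) (((k₁ : ℝ) * v i - round ((k₁ : ℝ) * v i)) +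
      ((k : ℝ) * v i - p i) * s)
    have d5 : (1 + ε / 2) / 2 / n + (ε / (8 * n) + ε / (8 * n)) = (1 + ε) / (2 * n) := by
      field_simp; ring
    rw [e] at c1
    linarith
  have h4 := measure_mono (μ := (volume : Measure ℝ)) h3
  rw [← h2, Real.volume_preimage_mul_left (by linarith), measure_preimage_add] at h4
  have h5 : ENNReal.ofReal ε ≤ (volume : Measure UnitAddCircle) U :=
    ENNReal.ofReal_le_of_le_toReal h1
  calc ENNReal.ofReal (ε / 2 * T) ≤ ENNReal.ofReal (k * ε) :=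
        ENNReal.ofReal_le_ofReal (by nlinarith)
    _ = ENNReal.ofReal k * ENNReal.ofReal ε := ENNReal.ofReal_mul (by linarith)
    _ ≤ ENNReal.ofReal k * (ENNReal.ofReal |(k : ℝ)⁻¹| * volume A) := by
        gcongr
        exact h5.trans h4
    _ = volume A := by
        rw [← mul_assoc, ← ENNReal.ofReal_mul (by linarith), abs_of_pos (by positivity),
          mul_inv_cancel₀ (by linarith), ENNReal.ofReal_one, one_mul]

end Pool.Agent.Lib.MP_a0e7a4_nt
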