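import Pool.Agent.Lib.MP_a0e7a4_nt.Main

/-!
The lonely times have measure bounded below by an absolute constant.
-/

set_option autoImplicit false

open Finset MeasureTheory

namespace Pool.Agent.Lib.MP_a0e7a4_nt

/-- the lonely times on the circle -/
def Lon (V : Finset ℕ) (δ : ℝ) : Set UnitAddCircle := {x | ∀ v ∈ V, δ ≤ ‖(v : ℤ) • x‖}

lemma meas_Lon (V : Finset ℕ) (δ : ℝ) : MeasurableSet (Lon V δ) := by
  have : Lon V δ = ⋂ v ∈ V, {x | δ ≤ ‖(v : ℤ) • x‖} := by
    ext x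
    simp [Lon]
  rw [this]
  exact Finset.measurableSet_biInter _ fun v _ =>
    (isClosed_le continuous_const (continuous_zsmul (v : ℤ)).norm).measurableSet

lemma mem_Lon {V : Finset ℕ} {δ t : ℝ} :
    (t : UnitAddCircle) ∈ Lon V δ ↔ ∀ v ∈ V, ∀ m : ℤ, δ ≤ |(v : ℝ) * t - m| := by
  refine forall₂_congr fun v _ => ?_
  have : (v : ℤ) • (t : UnitAddCircle) = ((v * t : ℝ) : UnitAddCircle) := by
    rw [← AddCircle.coe_zsmul]; simp
  rw [this, UnitAddCircle.norm_eq]
  exact ⟨fun h m => h.trans (round_le _ m), fun h => h _⟩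

lemma cover_mem' {V : Finset ℕ} {δ : ℝ} {x : UnitAddCircle} (hx : x ∉ Lon V δ) :
    ∃ v ∈ V, x ∈ E v 0 δ := by
  induction x using circ_ind with
  | h t =>
  rw [mem_Lon] at hx
  push Not at hx
  obtain ⟨v, hv, m, hm⟩ := hx
  exact ⟨v, hv, (mem_E _ _ _ _).2 ⟨m, by rw [sub_zero]; exact hm.le⟩⟩

lemma M1 {V : Finset ℕ} {δ : ℝ} (hV : ∀ v ∈ V, 0 < v) (hδ : 0 < δ) (h3 : 3 * δ ≤ 1) :
    1 ≤ 2 * δ * V.card + (volume : Measure UnitAddCircle).real (Lon V δ) := by
  have h1 : (Set.univ : Set UnitAddCircle) ⊆ (⋃ v ∈ V, E v 0 δ) ∪ Lon V δ := by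
    intro x _
    by_cases hx : x ∈ Lon V δ
    · exact Or.inr hx
    · obtain ⟨v, hv, hx⟩ := cover_mem' hx
      exact Or.inl (Set.mem_biUnion hv hx)
  have h2 := (measureReal_mono (μ := (volume : Measure UnitAddCircle)) h1 (measure_ne_top _ _)).trans
    (measureReal_union_le _ _)
  have h4 := measureReal_biUnion_finset_le (μ := (volume : Measure UnitAddCircle)) V
    (fun v => E v 0 δ)
  rw [sum_congr rfl (fun v hv => vol_E v (hV v hv) 0 δ hδ.le (by linarith)), sum_const,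
    nsmul_eq_mul] at h4
  rw [vol_univ] at h2
  linarith

lemma M2 {V : Finset ℕ} {δ : ℝ} (hV : ∀ v ∈ V, 0 < v) (hδ : 0 < δ) (h3 : 3 * δ ≤ 1) :
    ∑ v ∈ V, (volume : Measure UnitAddCircle).real (DD V δ v) ≤
      2 * (2 * δ * V.card) - 2 + 2 * (volume : Measure UnitAddCircle).real (Lon V δ) := by
  classical
  rw [← sum_ind_integral V _ (meas_DD V δ)]
  have i1 := sum_ind_integrable V (fun v => E v 0 δ) (fun v => meas_E _ _ _)
  have i2 := ind_integrable (meas_Lon V δ)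
  have i3 : Integrable fun x => 2 * ∑ v ∈ V, ind (E v 0 δ) x - 2 :=
    (i1.const_mul 2).sub (integrable_const _)
  have h2 : ∫ x, (2 * ∑ v ∈ V, ind (E v 0 δ) x - 2 + 2 * ind (Lon V δ) x) =
      2 * (2 * δ * V.card) - 2 + 2 * (volume : Measure UnitAddCircle).real (Lon V δ) := by
    rw [integral_add i3 (i2.const_mul 2),
      integral_sub (i1.const_mul 2) (integrable_const _), integral_const_mul, integral_const_mul,
      sum_ind_integral V _ (fun v => meas_E _ _ _), ind_integral (meas_Lon V δ),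
      sum_congr rfl (fun v hv => vol_E v (hV v hv) 0 δ hδ.le (by linarith)), sum_const,
      nsmul_eq_mul, integral_const, vol_univ]
    simp only [smul_eq_mul]; ring
  rw [← h2]
  apply integral_mono (sum_ind_integrable _ _ (meas_DD V δ))
    (((i1.const_mul 2).sub (integrable_const _)).add (i2.const_mul 2))
  intro x
  simp only [Pi.sub_apply, Pi.add_apply]
  rw [sum_ind V (fun v => DD V δ v), sum_ind V (fun v => E v 0 δ)]
  have c2 : (V.filter (fun v => x ∈ DD V δ v)).card ≤ (V.filter (fun v => x ∈ E v 0 δ)).card :=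
    card_le_card (fun u hu => mem_filter.2 ⟨(mem_filter.1 hu).1, (mem_filter.1 hu).2.1⟩)
  by_cases hxL : x ∈ Lon V δ
  · rw [ind_of_mem hxL]
    have c5 : ((V.filter (fun v => x ∈ DD V δ v)).card : ℝ) ≤
        (V.filter (fun v => x ∈ E v 0 δ)).card := by exact_mod_cast c2
    have c6 : (0 : ℝ) ≤ (V.filter (fun v => x ∈ E v 0 δ)).card := by positivity
    linarith
  rw [ind_of_notMem hxL]
  obtain ⟨v, hv, hx⟩ := cover_mem' hxL
  have c1 : 1 ≤ (V.filter (fun v => x ∈ E v 0 δ)).card :=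
    card_pos.2 ⟨v, mem_filter.2 ⟨hv, hx⟩⟩
  have c3 : (V.filter (fun v => x ∈ DD V δ v)).card = 0 ∨
      2 ≤ (V.filter (fun v => x ∈ E v 0 δ)).card := by
    rcases (V.filter (fun v => x ∈ DD V δ v)).eq_empty_or_nonempty with h | ⟨u, hu⟩
    · left; rw [h]; rfl
    · right
      rw [mem_filter] at hu
      obtain ⟨hu1, hu2, hu3⟩ := hu
      simp only [Set.mem_iUnion] at hu3
      obtain ⟨w, hw, hxw⟩ := hu3
      rw [mem_erase] at hw
      exact one_lt_card.2 ⟨u, mem_filter.2 ⟨hu1, hu2⟩, w, mem_filter.2 ⟨hw.2, hxw⟩, hw.1.symm⟩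
  have c4 : (V.filter (fun v => x ∈ DD V δ v)).card + 2 ≤
      2 * (V.filter (fun v => x ∈ E v 0 δ)).card := by omega
  have c5 : ((V.filter (fun v => x ∈ DD V δ v)).card : ℝ) + 2 ≤
      2 * (V.filter (fun v => x ∈ E v 0 δ)).card := by exact_mod_cast c4
  linarith

/-- the part of the strip of `v` that does not come from a doubly covered point -/
def St (V : Finset ℕ) (δ : ℝ) (v : ℕ) : Set UnitAddCircle :=
  E v (3 * δ / 2) (δ / 2) \ sh (-(δ / v)) (DD V δ v)

lemma meas_St (V : Finset ℕ) (δ : ℝ) (v : ℕ) : MeasurableSet (St V δ v) :=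
  (meas_E _ _ _).diff (meas_sh _ (meas_DD _ _ _))

lemma M3 {V : Finset ℕ} {δ : ℝ} (hV : ∀ v ∈ V, 0 < v) (hδ : 0 < δ) (h3 : 3 * δ ≤ 1)
    (v : ℕ) (hv : v ∈ V) :
    δ ≤ (volume : Measure UnitAddCircle).real (DD V δ v) +
      ∑ w ∈ V.erase v, (volume : Measure UnitAddCircle).real (FF δ v w) +
      (volume : Measure UnitAddCircle).real (Lon V δ ∩ St V δ v) := by
  have hv0 : (0 : ℝ) < v := by exact_mod_cast hV v hv
  have h1 : E v (3 * δ / 2) (δ / 2) ⊆
      (sh (-(δ / v)) (DD V δ v) ∪ ⋃ w ∈ V.erase v, FF δ v w) ∪ (Lon V δ ∩ St V δ v) := by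
    intro x
    induction x using circ_ind with
    | h t =>
    intro hx
    by_cases hs : (t : UnitAddCircle) ∈ sh (-(δ / v)) (DD V δ v)
    · exact Or.inl (Or.inl hs)
    by_cases hL : (t : UnitAddCircle) ∈ Lon V δ
    · exact Or.inr ⟨hL, hx, hs⟩
    refine Or.inl (Or.inr ?_)
    obtain ⟨m, hm⟩ := (mem_E _ _ _ _).1 hx
    rw [mem_Lon] at hL
    push Not at hL
    obtain ⟨w, hw, m', hm'⟩ := hL
    rw [abs_le] at hm
    rw [abs_lt] at hm'
    have hwv : w ≠ v := by
      rintro rfl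
      have c1 : (m : ℝ) < m' := by linarith
      have c2 : m + 1 ≤ m' := by exact_mod_cast c1
      have c3 : (m : ℝ) + 1 ≤ m' := by exact_mod_cast c2
      linarith
    have hw' : w ∈ V.erase v := mem_erase.2 ⟨hwv, hw⟩
    refine Set.mem_biUnion hw' ?_
    unfold FF
    by_cases hlt : w < v
    · rw [if_pos hlt]
      have hneg : (w : ℝ) * t - m' ≤ 0 := by
        by_contra hneg
        apply hs
        rw [mem_sh]
        push Not at hneg
        have c1 : (w : ℝ) * (δ / v) ≤ δ := by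
          have : (w : ℝ) ≤ v := by exact_mod_cast hlt.le
          calc (w : ℝ) * (δ / v) ≤ v * (δ / v) := mul_le_mul_of_nonneg_right this (by positivity)
            _ = δ := by field_simp
        have c2 : 0 ≤ (w : ℝ) * (δ / v) := by positivity
        have c3 : (v : ℝ) * (δ / v) = δ := by field_simp
        refine ⟨(mem_E _ _ _ _).2 ⟨m, ?_⟩, Set.mem_biUnion hw' ((mem_E _ _ _ _).2 ⟨m', ?_⟩)⟩
        · rw [abs_le, mul_add, mul_neg]; constructor <;> linarith
        · rw [abs_le, mul_add, mul_neg]; constructor <;> linarith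
      refine ⟨hx, (mem_E _ _ _ _).2 ⟨m', ?_⟩⟩
      rw [abs_le]; constructor <;> linarith
    · rw [if_neg hlt]
      refine ⟨hx, (mem_E _ _ _ _).2 ⟨m', ?_⟩⟩
      rw [abs_le]; constructor <;> linarith
  have h2 := (measureReal_mono (μ := (volume : Measure UnitAddCircle)) h1 (measure_ne_top _ _)).trans
    ((measureReal_union_le _ _).trans (add_le_add (measureReal_union_le _ _) le_rfl))
  rw [vol_E v (hV v hv) _ _ (by linarith) (by linarith), vol_sh] at h2
  have h4 := measureReal_biUnion_finset_le (μ := (volume : Measure UnitAddCircle)) (V.erase v)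
    (fun w => FF δ v w)
  linarith

lemma M4 {V : Finset ℕ} {δ : ℝ} (hV : ∀ v ∈ V, 0 < v) (hδ : 0 < δ) (h3 : 3 * δ ≤ 1)
    {v w : ℕ} (hv : v ∈ V) (hw : w ∈ V) (hlt : w < v) :
    (volume : Measure UnitAddCircle).real (St V δ v ∩ St V δ w) ≤ 3 * δ ^ 2 := by
  have hv0 := hV v hv
  have hw0 := hV w hw
  obtain ⟨g, a, b, hg, hab, rfl, rfl⟩ : ∃ g a b : ℕ, 0 < g ∧ Nat.Coprime a b ∧ v = g * a ∧
      w = g * b := by
    have hg : 0 < Nat.gcd v w := Nat.gcd_pos_of_pos_left _ hv0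
    refine ⟨Nat.gcd v w, v / Nat.gcd v w, w / Nat.gcd v w, hg, Nat.coprime_div_gcd_div_gcd hg,
      (Nat.mul_div_cancel' (Nat.gcd_dvd_left _ _)).symm,
      (Nat.mul_div_cancel' (Nat.gcd_dvd_right _ _)).symm⟩
  have ha0 : 0 < a := Nat.pos_of_mul_pos_left hv0
  have hb0 : 0 < b := Nat.pos_of_mul_pos_left hw0
  have ha0' : (0 : ℝ) < a := by exact_mod_cast ha0
  have hb0' : (0 : ℝ) < b := by exact_mod_cast hb0
  have hg' : (0 : ℝ) < g := by exact_mod_cast hg
  have hba : (b : ℝ) < a := by exact_mod_cast Nat.lt_of_mul_lt_mul_left hlt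
  by_cases hc : 1 ≤ 2 * δ * a
  · have h1 := pair_bound g b a hg ha0 hab.symm (3 * δ / 2) (δ / 2) (3 * δ / 2) (δ / 2)
      (by linarith) (by linarith) (by linarith)
    have h2 : 1 / (a : ℝ) ≤ 2 * δ := by rwa [div_le_iff₀ ha0']
    have h4 : St V δ (g * a) ∩ St V δ (g * b) ⊆
        E (g * b) (3 * δ / 2) (δ / 2) ∩ E (g * a) (3 * δ / 2) (δ / 2) :=
      fun x hx => ⟨hx.2.1, hx.1.1⟩
    refine (measureReal_mono h4 (measure_ne_top _ _)).trans (h1.trans ?_)
    nlinarith
  have h0 : St V δ (g * a) ∩ St V δ (g * b) = ∅ := by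
    rw [Set.eq_empty_iff_forall_notMem]
    intro y
    induction y using circ_ind with
    | h t =>
    rintro ⟨⟨h1, hs⟩, h2, -⟩
    apply hs
    obtain ⟨m, hm⟩ := (mem_E _ _ _ _).1 h1
    obtain ⟨m', hm'⟩ := (mem_E _ _ _ _).1 h2
    rw [abs_le] at hm hm'
    push_cast at hm hm'
    push Not at hc
    set x := (g : ℝ) * a * t - m with hx
    set x' := (g : ℝ) * b * t - m' with hx'
    have e : ((a * m' - b * m : ℤ) : ℝ) = b * x - a * x' := by
      rw [hx, hx']; push_cast; ring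
    have x1 : δ ≤ x := by linarith
    have x2 : x ≤ 2 * δ := by linarith
    have x3 : δ ≤ x' := by linarith
    have x4 : x' ≤ 2 * δ := by linarith
    have c1 : ((a * m' - b * m : ℤ) : ℝ) < 1 := by rw [e]; nlinarith
    have c2 : (-1 : ℝ) < ((a * m' - b * m : ℤ) : ℝ) := by rw [e]; nlinarith
    have c3 : (a * m' - b * m : ℤ) < 1 := by exact_mod_cast c1
    have c4 : (-1 : ℤ) < a * m' - b * m := by exact_mod_cast c2
    have c5 : (a * m' - b * m : ℤ) = 0 := by omega
    rw [c5, Int.cast_zero] at e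
    have c6 : x' - δ * b / a = (x - δ) * (b / a) := by
      field_simp
      linarith
    have c7 : (b : ℝ) / a ≤ 1 := (div_le_one ha0').2 hba.le
    have c8 : 0 ≤ (b : ℝ) / a := by positivity
    rw [mem_sh]
    refine ⟨(mem_E _ _ _ _).2 ⟨m, ?_⟩,
      Set.mem_biUnion (mem_erase.2 ⟨hlt.ne, hw⟩) ((mem_E _ _ _ _).2 ⟨m', ?_⟩)⟩
    · have : ((g * a : ℕ) : ℝ) * (t + -(δ / ((g * a : ℕ) : ℝ))) - 0 - m = x - δ := by
        rw [hx]; push_cast; field_simp; ring
      rw [this, abs_le]; constructor <;> linarith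
    · have : ((g * b : ℕ) : ℝ) * (t + -(δ / ((g * a : ℕ) : ℝ))) - 0 - m' = x' - δ * b / a := by
        rw [hx']; push_cast; field_simp; ring
      rw [this, c6, abs_le]; constructor <;> nlinarith
  rw [h0, measureReal_empty]
  positivity

lemma ind_inter (A B : Set UnitAddCircle) (x : UnitAddCircle) :
    ind (A ∩ B) x = ind A x * ind B x := by
  by_cases hA : x ∈ A <;> by_cases hB : x ∈ B <;> simp [ind, hA, hB]

lemma M5 (V : Finset ℕ) {U : Set UnitAddCircle} (hU : MeasurableSet U)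
    (S : ℕ → Set UnitAddCircle) (hS : ∀ v, MeasurableSet (S v)) :
    ∑ v ∈ V, (volume : Measure UnitAddCircle).real (U ∩ S v) ≤
      50 * (volume : Measure UnitAddCircle).real U +
        (∑ v ∈ V, ∑ w ∈ V, (volume : Measure UnitAddCircle).real (S v ∩ S w)) / 50 := by
  have i1 := ind_integrable hU
  have i2 : ∀ v, Integrable fun x => ∑ w ∈ V, ind (S v ∩ S w) x := fun v =>
    sum_ind_integrable V _ fun w => (hS v).inter (hS w)
  have i3 : Integrable fun x => ∑ v ∈ V, ∑ w ∈ V, ind (S v ∩ S w) x :=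
    integrable_finsetSum _ fun v _ => i2 v
  rw [← sum_ind_integral V _ (fun v => hU.inter (hS v)), ← ind_integral hU,
    ← sum_congr rfl fun v _ => sum_ind_integral V _ fun w => (hS v).inter (hS w),
    ← integral_finsetSum _ fun v _ => i2 v, ← integral_const_mul, ← integral_div,
    ← integral_add (i1.const_mul 50) (i3.div_const 50)]
  apply integral_mono (sum_ind_integrable _ _ fun v => hU.inter (hS v))
    ((i1.const_mul 50).add (i3.div_const 50))
  intro x
  simp only [ind_inter, ← mul_sum, ← sum_mul, Pi.add_apply]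
  by_cases hx : x ∈ U
  · rw [ind_of_mem hx]
    nlinarith [sq_nonneg (∑ v ∈ V, ind (S v) x - 50)]
  · rw [ind_of_notMem hx]
    nlinarith [sq_nonneg (∑ v ∈ V, ind (S v) x)]

lemma M6 {V : Finset ℕ} {δ : ℝ} (hV : ∀ v ∈ V, 0 < v) (hδ : 0 < δ) (h3 : 3 * δ ≤ 1) :
    ∑ v ∈ V, ∑ w ∈ V, (volume : Measure UnitAddCircle).real (St V δ v ∩ St V δ w) ≤
      δ * V.card + 3 * δ ^ 2 * (V.card : ℝ) ^ 2 := by
  have h1 : ∀ v ∈ V, ∑ w ∈ V, (volume : Measure UnitAddCircle).real (St V δ v ∩ St V δ w) ≤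
      δ + 3 * δ ^ 2 * V.card := by
    intro v hv
    rw [← add_sum_erase V _ hv]
    refine add_le_add ?_ ?_
    · refine (measureReal_mono (fun x hx => hx.1.1) (measure_ne_top _ _)).trans ?_
      rw [vol_E v (hV v hv) _ _ (by linarith) (by linarith)]
      linarith
    · calc _ ≤ ∑ w ∈ V.erase v, 3 * δ ^ 2 := by
            apply sum_le_sum; intro w hw
            rw [mem_erase] at hw
            rcases lt_or_gt_of_ne hw.1 with h | h
            · exact M4 hV hδ h3 hv hw.2 h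
            · rw [Set.inter_comm]; exact M4 hV hδ h3 hw.2 hv h
        _ ≤ ∑ w ∈ V, 3 * δ ^ 2 :=
            sum_le_sum_of_subset_of_nonneg (erase_subset _ _) fun _ _ _ => by positivity
        _ = _ := by rw [sum_const, nsmul_eq_mul, mul_comm]
  refine (sum_le_sum h1).trans (le_of_eq ?_)
  rw [sum_const, nsmul_eq_mul]; ring

lemma M7 {V : Finset ℕ} {δ : ℝ} (hV : ∀ v ∈ V, 0 < v) (hδ : 0 < δ) (h3 : 3 * δ ≤ 1)
    (H : ℕ) (hH : 0 < H) :
    δ * V.card ≤ ∑ v ∈ V, (volume : Measure UnitAddCircle).real (DD V δ v) +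
      3 / 2 * δ ^ 2 * (V.card : ℝ) ^ 2 + 2 * δ / H * (V.card : ℝ) ^ 2 +
      6 * δ ^ 2 * (pairs V H).card + (50 * (volume : Measure UnitAddCircle).real (Lon V δ) +
        (δ * V.card + 3 * δ ^ 2 * (V.card : ℝ) ^ 2) / 50) := by
  have h1 : ∑ v ∈ V, δ ≤ ∑ v ∈ V, ((volume : Measure UnitAddCircle).real (DD V δ v) +
      ∑ w ∈ V.erase v, ((if w < v then δ ^ 2 else 2 * δ ^ 2) + 2 * δ / H +
        (if (v, w) ∈ pairs V H then 6 * δ ^ 2 else 0)) +
      (volume : Measure UnitAddCircle).real (Lon V δ ∩ St V δ v)) := by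
    apply sum_le_sum; intro v hv
    refine (M3 hV hδ h3 v hv).trans (add_le_add (add_le_add le_rfl ?_) le_rfl)
    apply sum_le_sum; intro w hw
    exact L4 V hV hδ h3 H hH v w hv (mem_erase.1 hw).2 (mem_erase.1 hw).1
  simp only [sum_add_distrib] at h1
  rw [sum_const, nsmul_eq_mul] at h1
  have h2 := main_sum V δ
  have h4 : ∑ v ∈ V, ∑ w ∈ V.erase v, 2 * δ / H ≤ 2 * δ / H * (V.card : ℝ) ^ 2 := by
    calc ∑ v ∈ V, ∑ w ∈ V.erase v, 2 * δ / H ≤ ∑ v ∈ V, ∑ w ∈ V, 2 * δ / H := by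
          apply sum_le_sum; intro v _
          exact sum_le_sum_of_subset_of_nonneg (erase_subset _ _) (fun _ _ _ => by positivity)
      _ = _ := by simp only [sum_const, nsmul_eq_mul]; ring
  have h5 : ∑ v ∈ V, ∑ w ∈ V.erase v, (if (v, w) ∈ pairs V H then 6 * δ ^ 2 else 0) ≤
      6 * δ ^ 2 * (pairs V H).card := by
    calc ∑ v ∈ V, ∑ w ∈ V.erase v, (if (v, w) ∈ pairs V H then 6 * δ ^ 2 else 0) ≤
        ∑ v ∈ V, ∑ w ∈ V, (if (v, w) ∈ pairs V H then 6 * δ ^ 2 else 0) := by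
          apply sum_le_sum; intro v _
          exact sum_le_sum_of_subset_of_nonneg (erase_subset _ _)
            (fun _ _ _ => by split_ifs <;> positivity)
      _ = ∑ x ∈ V ×ˢ V, (if x ∈ pairs V H then 6 * δ ^ 2 else 0) := by rw [sum_product]
      _ = _ := by
          have hs : pairs V H ⊆ V ×ˢ V := filter_subset _ _
          rw [← sum_filter, filter_mem_eq_inter, inter_eq_right.2 hs, sum_const,
            nsmul_eq_mul, mul_comm]
  have h6 := M5 V (meas_Lon V δ) (St V δ) (meas_St V δ)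
  have h7 := M6 hV hδ h3
  linarith

end Pool.Agent.Lib.MP_a0e7a4_nt
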